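import Pool.Agent.H32.RC.Defs
import Pool.Agent.H32.BT.RobustChart

set_option autoImplicit false

open Filter Topology Polynomial OnePoint Metric Set

namespace Pool.Agent.H32.RC

open Pool.Agent.H44.Fatou Pool.Agent.H32.BT Pool.Agent.H32.RB

private theorem const_loc {d : ℕ} (v0 : (Fin (d + 1) → ℂ) × (Fin (d + 1) → ℂ)) {z0 c0 : ℂ}
    (h : ev v0.2 z0 ≠ 0) (hv : ev v0.1 z0 / ev v0.2 z0 = c0) {N : Set ℂ} (hN : N ∈ 𝓝 c0) :
    ∀ᶠ y : ((Fin (d + 1) → ℂ) × (Fin (d + 1) → ℂ)) × ℂ in 𝓝 (v0, z0),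
      ev y.1.2 y.2 ≠ 0 ∧ ev y.1.1 y.2 / ev y.1.2 y.2 ∈ N := by
  have h5 : Tendsto (fun y : ((Fin (d + 1) → ℂ) × (Fin (d + 1) → ℂ)) × ℂ => ev y.1.2 y.2)
      (𝓝 (v0, z0)) (𝓝 (ev v0.2 z0)) := ev2_cont.tendsto (v0, z0)
  have h4 : Tendsto (fun y : ((Fin (d + 1) → ℂ) × (Fin (d + 1) → ℂ)) × ℂ => ev y.1.1 y.2)
      (𝓝 (v0, z0)) (𝓝 (ev v0.1 z0)) := ev1_cont.tendsto (v0, z0)
  have h6 : Tendsto (fun y : ((Fin (d + 1) → ℂ) × (Fin (d + 1) → ℂ)) × ℂ =>
      ev y.1.1 y.2 / ev y.1.2 y.2) (𝓝 (v0, z0)) (𝓝 c0) := by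
    rw [← hv]
    exact h4.div h5 h
  exact (h5.eventually_ne h).and (h6.eventually hN)

theorem robust_const {H : Polynomial ℂ} {d : ℕ} (hd : 1 ≤ d) (hH : H.natDegree = d)
    (hsq : ∀ h, H.eval h = 0 → (derivative H).eval h ≠ 0) {c0 : ℂ} (hc : H.eval c0 ≠ 0) :
    Robust d (C c0 * H) H := by
  have hQ0 : H.natDegree ≤ d := hH.le
  have hP0 : (C c0 * H).natDegree ≤ d := (natDegree_C_mul_le _ _).trans hQ0
  have hH0 : H ≠ 0 := by
    rintro rfl
    simp at hc
  have hlead : H.coeff d ≠ 0 := by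
    rw [← hH]
    exact leadingCoeff_ne_zero.2 hH0
  set v0 : (Fin (d + 1) → ℂ) × (Fin (d + 1) → ℂ) := (cf d (C c0 * H), cf d H) with hv0
  have e1 : ∀ z, ev v0.1 z = c0 * H.eval z := by
    intro z; rw [hv0]; simp only; rw [ev_cf hP0, eval_mul, eval_C]
  have e2 : ∀ z, ev v0.2 z = H.eval z := by
    intro z; rw [hv0]; simp only; rw [ev_cf hQ0]
  have e3 : ∀ z, wv v0 z = 0 := by
    intro z
    rw [hv0, wv_cf hP0 hQ0]
    simp [Wr]
    ring
  -- the trap
  obtain ⟨r, hr, _, hev⟩ := sink_of_mult v0 (fun _ => c0) 1 one_pos rfl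
    (fun j _ => by rw [e2]; exact hc)
    (fun j _ => by rw [e1, e2]; exact mul_div_cancel_right₀ _ hc)
    (by simp [e3]) Set.univ univ_mem
  have hNr : ball c0 r ∈ 𝓝 c0 := ball_mem_nhds c0 hr
  -- infinity
  have hr1 : ev (rv v0).1 0 = c0 * H.coeff d := by
    rw [hv0, rv_cf]
    simp only
    rw [ev_cf (natDegree_reflect_le' hP0), eval_reflect_zero, coeff_C_mul]
  have hr2 : ev (rv v0).2 0 = H.coeff d := by
    rw [hv0, rv_cf]
    simp only
    rw [ev_cf (natDegree_reflect_le' hQ0), eval_reflect_zero]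
  have hinf := const_loc (rv v0) (z0 := 0) (c0 := c0) (by rw [hr2]; exact hlead)
    (by rw [hr1, hr2]; exact mul_div_cancel_right₀ _ hlead) hNr
  have hinf1 := ((rv1_cont (d := d)).tendsto (v0, 0)).eventually hinf
  rw [nhds_prod_eq, eventually_prod_iff] at hinf1
  obtain ⟨p, hp, q, hq, hpq⟩ := hinf1
  simp only at hpq
  obtain ⟨ε, hε, hball⟩ := Metric.eventually_nhds_iff_ball.1 hq
  -- compact part
  have hcomp : ∀ᶠ v in 𝓝 v0, ∀ z ∈ closedBall (0 : ℂ) (1 / ε),
      wv v z = 0 → (ev v.1 z ≠ 0 ∨ ev v.2 z ≠ 0) →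
        ev v.2 z ≠ 0 ∧ ev v.1 z / ev v.2 z ∈ ball c0 r := by
    apply (isCompact_closedBall (0 : ℂ) (1 / ε)).eventually_forall_of_forall_eventually
    intro z0 _
    by_cases hz : H.eval z0 = 0
    · have hd1' : dev v0.1 z0 = c0 * (derivative H).eval z0 := by
        rw [hv0]; simp only
        rw [dev_cf hP0, derivative_C_mul, eval_mul, eval_C]
      have hd2' : dev v0.2 z0 = 1 * (derivative H).eval z0 := by
        rw [hv0]; simp only
        rw [dev_cf hQ0, one_mul]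
      exact crit_near_hole v0 (A := fun _ => c0) (B := fun _ => 1)
        (G := fun z => (derivative H).eval z) (h := z0) continuous_const continuous_const
        (derivative H).continuous one_ne_zero (hsq z0 hz) hd1' hd2'
        (N := ball c0 r) (by simpa using hNr)
    · have h1 := const_loc v0 (z0 := z0) (c0 := c0) (by rw [e2]; exact hz)
        (by rw [e1, e2]; exact mul_div_cancel_right₀ _ hz) hNr
      filter_upwards [h1] with y hy _ _
      exact hy
  obtain ⟨ρ, hρ, hball'⟩ := Metric.eventually_nhds_iff_ball.1 ((hev.and hp).and hcomp)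
  refine ⟨ρ, hρ, ?_⟩
  intro P Q hPQ hdeg hnear
  have hmem : ((cf d P, cf d Q) : (Fin (d + 1) → ℂ) × (Fin (d + 1) → ℂ)) ∈ ball v0 ρ := by
    rw [mem_ball, hv0, Prod.dist_eq, max_lt_iff]
    constructor
    · rw [dist_pi_lt_iff hρ]
      intro i
      rw [dist_eq_norm]
      exact (hnear i).1
    · rw [dist_pi_lt_iff hρ]
      intro i
      rw [dist_eq_norm]
      exact (hnear i).2
  obtain ⟨⟨h1, h2⟩, h3⟩ := hball' _ hmem
  have hPd : P.natDegree ≤ d := by rw [← hdeg]; exact le_max_left _ _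
  have hQd : Q.natDegree ≤ d := by rw [← hdeg]; exact le_max_right _ _
  have hatt : ∀ w ∈ ball c0 r, Att (rat P Q) (w : OnePoint ℂ) := by
    intro w hw
    obtain ⟨z', _, hz's, hz't⟩ := h1 P Q hPQ hPd hQd rfl
    exact ⟨z', 1, hz's, (hz't w (ball_subset_closedBall hw)).1⟩
  intro c hcr
  rw [← att_map (rat_continuous hPQ)]
  induction c using OnePoint.rec with
  | infty =>
    have h4 := hpq h2 (hball 0 (mem_ball_self hε))
    rw [rv_cf] at h4
    simp only at h4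
    rw [ev_cf (natDegree_reflect_le' hPd), ev_cf (natDegree_reflect_le' hQd), eval_reflect_zero,
      eval_reflect_zero] at h4
    have : dg P Q = d := hdeg
    rw [rat_infty, this, pt, if_neg h4.1]
    exact hatt _ h4.2
  | coe c =>
    have key : ∀ c : ℂ, ev (cf d Q) c ≠ 0 ∧ ev (cf d P) c / ev (cf d Q) c ∈ ball c0 r →
        Att (rat P Q) (rat P Q (c : OnePoint ℂ)) := by
      intro c h6
      rw [ev_cf hPd, ev_cf hQd] at h6
      rw [rat_coe_of_ne h6.1]
      exact hatt _ h6.2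
    apply key
    by_cases h5 : ‖c‖ ≤ 1 / ε
    · refine h3 c (by rw [mem_closedBall_zero_iff]; exact h5) ?_ ?_
      · rw [wv_cf hPd hQd]
        exact crit_coe hcr
      · rw [ev_cf hPd, ev_cf hQd]
        exact coprime_eval hPQ c
    · push Not at h5
      have hcn : 0 < ‖c‖ := lt_trans (by positivity) h5
      have hc0 : c ≠ 0 := norm_pos_iff.1 hcn
      have h6 := hpq h2 (hball c⁻¹ (by
        rw [mem_ball_zero_iff, norm_inv, inv_lt_comm₀ hcn hε, ← one_div]
        exact h5))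
      have h7 : (rv (cf d P, cf d Q) : (Fin (d + 1) → ℂ) × (Fin (d + 1) → ℂ)) =
          (fun i => cf d P (Fin.rev i), fun i => cf d Q (Fin.rev i)) := rfl
      rw [h7] at h6
      simp only at h6
      have hcd : c ^ d ≠ 0 := pow_ne_zero _ hc0
      rw [ev_rev (cf d P) hc0, ev_rev (cf d Q) hc0, mul_div_mul_right _ _ hcd]
      exact ⟨mul_ne_zero h6.1 hcd, h6.2⟩

end Pool.Agent.H32.RC
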