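import Pool.Agent.H32.RC.Eig

set_option autoImplicit false

open Filter Topology Polynomial OnePoint Metric Set

namespace Pool.Agent.H32.RC

open Pool.Agent.H44.Fatou Pool.Agent.H32.BT Pool.Agent.H32.RB

/-- linear polynomials with nonzero determinant -/
theorem mob_of_det {a1 a0 b1 b0 : ℂ} (hD : a1 * b0 - a0 * b1 ≠ 0) :
    IsCoprime (C a1 * X + C a0) (C b1 * X + C b0) ∧
      max (C a1 * X + C a0 : Polynomial ℂ).natDegree (C b1 * X + C b0 : Polynomial ℂ).natDegree = 1 := by
  set D := a1 * b0 - a0 * b1 with hDd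
  constructor
  · refine ⟨C (-b1 / D), C (a1 / D), ?_⟩
    have h1 : -b1 / D * a1 + a1 / D * b1 = 0 := by field_simp; ring
    have h2 : -b1 / D * a0 + a1 / D * b0 = 1 := by
      have : -b1 / D * a0 + a1 / D * b0 = D / D := by rw [hDd]; field_simp; ring
      rw [this, div_self hD]
    calc C (-b1 / D) * (C a1 * X + C a0) + C (a1 / D) * (C b1 * X + C b0)
        = C (-b1 / D * a1 + a1 / D * b1) * X + C (-b1 / D * a0 + a1 / D * b0) := by
          simp only [C_add, C_mul]; ring
      _ = 1 := by rw [h1, h2, C_0, zero_mul, zero_add, C_1]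
  · have hle : ∀ c1 c0 : ℂ, (C c1 * X + C c0 : Polynomial ℂ).natDegree ≤ 1 := fun c1 c0 =>
      natDegree_linear_le
    by_cases ha : a1 = 0
    · have hb : b1 ≠ 0 := by
        rintro rfl
        apply hD
        rw [hDd, ha]; ring
      rw [natDegree_linear hb]
      exact max_eq_right (hle _ _)
    · rw [natDegree_linear ha]
      exact max_eq_left (hle _ _)

theorem lin_c1 (a1 a0 : ℂ) : (C a1 * X + C a0 : Polynomial ℂ).coeff 1 = a1 := by
  rw [coeff_add, coeff_C_mul, coeff_X_one, mul_one, coeff_C_succ, add_zero]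

theorem lin_c0 (a1 a0 : ℂ) : (C a1 * X + C a0 : Polynomial ℂ).coeff 0 = a0 := by
  rw [coeff_add, coeff_C_mul, coeff_X_zero, mul_zero, coeff_C_zero, zero_add]

/-- closeness for linear polynomials -/
theorem lin_coeff_lt {a1 a0 c1 c0 : ℂ} {ρ : ℝ} (hρ : 0 < ρ)
    (h1 : ‖a1 - c1‖ < ρ) (h0 : ‖a0 - c0‖ < ρ) (i : ℕ) :
    ‖(C a1 * X + C a0 : Polynomial ℂ).coeff i - (C c1 * X + C c0 : Polynomial ℂ).coeff i‖ < ρ := by
  rcases i with _ | _ | n
  · simpa using h0
  · simpa using h1
  · simpa [coeff_X, coeff_C] using hρ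

/-- a double hole over a constant -/
theorem const_simple (a b h : ℂ) :
    ¬ Robust 2 (C a * ((X - C h) * (X - C h))) (C b * ((X - C h) * (X - C h))) := by
  intro hrob
  obtain ⟨ρ, hρ, hnear⟩ := hrob.near
  obtain ⟨r, hr, hmul⟩ := mul_near2 (X - C h) hρ
  obtain ⟨δ, hδ, hδr⟩ : ∃ δ : ℝ, 0 < δ ∧ δ * (1 + 2 * ‖h‖) < r := by
    refine ⟨r / (2 * (1 + 2 * ‖h‖)), by positivity, ?_⟩
    have : r / (2 * (1 + 2 * ‖h‖)) * (1 + 2 * ‖h‖) = r / 2 := by field_simp
    rw [this]; linarith
  have hhn := norm_nonneg h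
  have hδr' : δ < r := by nlinarith
  obtain ⟨t, htδ, ht⟩ : ∃ t : ℂ, ‖t‖ ≤ δ ∧ a + t ≠ b * h := by
    by_cases hab : a = b * h
    · refine ⟨(δ : ℂ), by rw [Complex.norm_real, Real.norm_of_nonneg hδ.le], ?_⟩
      rw [hab]
      intro h0
      have : (δ : ℂ) = 0 := by linear_combination h0
      exact hδ.ne' (by exact_mod_cast this)
    · exact ⟨0, by simpa using hδ.le, by simpa using hab⟩
  set s : ℂ := (δ : ℂ) with hs
  have hsn : ‖s‖ = δ := by rw [hs, Complex.norm_real, Real.norm_of_nonneg hδ.le]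
  have hs0 : s ≠ 0 := by
    intro h0
    rw [h0, norm_zero] at hsn
    exact hδ.ne hsn
  obtain ⟨hcop, hdeg⟩ := mob_of_det (a1 := a + t) (a0 := h * s - (a + t) * h) (b1 := b)
    (b0 := s - b * h) (by
      have : (a + t) * (s - b * h) - (h * s - (a + t) * h) * b = s * (a + t - b * h) := by ring
      rw [this]
      exact mul_ne_zero hs0 (sub_ne_zero.2 ht))
  have hn : Near r (C (a + t) * X + C (h * s - (a + t) * h)) (C b * X + C (s - b * h))
      (C a * (X - C h)) (C b * (X - C h)) := by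
    have e1 : C a * (X - C h) = C a * X + C (-(a * h)) := by
      rw [C_neg, C_mul]; ring
    have e2 : C b * (X - C h) = C b * X + C (-(b * h)) := by
      rw [C_neg, C_mul]; ring
    rw [e1, e2]
    intro i
    constructor
    · refine lin_coeff_lt hr ?_ ?_ i
      · rw [add_sub_cancel_left]
        exact htδ.trans_lt hδr'
      · have : h * s - (a + t) * h - -(a * h) = h * s - t * h := by ring
        rw [this]
        calc ‖h * s - t * h‖ ≤ ‖h * s‖ + ‖t * h‖ := norm_sub_le _ _
          _ ≤ ‖h‖ * δ + δ * ‖h‖ := by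
              rw [norm_mul, norm_mul, hsn]
              gcongr
          _ < r := by nlinarith
    · refine lin_coeff_lt hr ?_ ?_ i
      · rw [sub_self, norm_zero]; exact hr
      · have : s - b * h - -(b * h) = s := by ring
        rw [this, hsn]
        exact hδr'
  have hrob2 : Robust 2 ((C (a + t) * X + C (h * s - (a + t) * h)) * (X - C h))
      ((C b * X + C (s - b * h)) * (X - C h)) := by
    apply hnear
    have := hmul _ _ _ _ hn
    rwa [mul_assoc (C a), mul_assoc (C b)] at this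
  refine not_robust_fix1 hcop hdeg (b := h) ?_ ?_ hrob2
  · simp only [eval_add, eval_mul, eval_C, eval_X]
    have : b * h + (s - b * h) = s := by ring
    rw [this]; exact hs0
  · simp only [eval_add, eval_mul, eval_C, eval_X]
    ring

/-- the constant value is a hole -/
theorem const_val {b : ℂ} (hb : b ≠ 0) (h h' : ℂ) :
    ¬ Robust 2 (C (b * h) * ((X - C h) * (X - C h'))) (C b * ((X - C h) * (X - C h'))) := by
  intro hrob
  obtain ⟨ρ, hρ, hnear⟩ := hrob.near
  obtain ⟨r, hr, hmul⟩ := mul_near2 (X - C h') hρ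
  obtain ⟨τ, hτ0, hτn, hτh⟩ : ∃ τ : ℂ, τ ≠ 0 ∧ ‖b * τ ^ 2‖ < r ∧ τ ^ 2 ≠ (h' - h) ^ 2 := by
    have e1 : ∀ᶠ τ : ℂ in 𝓝[≠] (0 : ℂ), ‖b * τ ^ 2‖ < r := by
      apply nhdsWithin_le_nhds
      have hc : Continuous fun τ : ℂ => ‖b * τ ^ 2‖ := by fun_prop
      have := hc.tendsto 0
      simp only [ne_eq, OfNat.ofNat_ne_zero, not_false_eq_true, zero_pow, mul_zero,
        norm_zero] at this
      exact this.eventually_lt_const hr
    have e2 : ∀ᶠ τ : ℂ in 𝓝[≠] (0 : ℂ), τ ^ 2 ≠ (h' - h) ^ 2 := by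
      by_cases hh : h' - h = 0
      · filter_upwards [self_mem_nhdsWithin] with τ hτ
        rw [hh]
        simpa using hτ
      · apply nhdsWithin_le_nhds
        have hc : Continuous fun τ : ℂ => τ ^ 2 := by fun_prop
        have := hc.tendsto 0
        simp only [ne_eq, OfNat.ofNat_ne_zero, not_false_eq_true, zero_pow] at this
        exact this.eventually_ne (pow_ne_zero 2 hh).symm
    obtain ⟨τ, h1, h2, h3⟩ := (e1.and (e2.and self_mem_nhdsWithin)).exists
    exact ⟨τ, h3, h1, h2⟩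
  obtain ⟨hcop, hdeg⟩ := mob_of_det (a1 := b * h) (a0 := b * τ ^ 2 - b * h * h) (b1 := b)
    (b0 := -(b * h)) (by
      have : b * h * -(b * h) - (b * τ ^ 2 - b * h * h) * b = -(b ^ 2 * τ ^ 2) := by ring
      rw [this]
      exact neg_ne_zero.2 (mul_ne_zero (pow_ne_zero 2 hb) (pow_ne_zero 2 hτ0)))
  have hn : Near r (C (b * h) * X + C (b * τ ^ 2 - b * h * h)) (C b * X + C (-(b * h)))
      (C (b * h) * (X - C h)) (C b * (X - C h)) := by
    have e1 : C (b * h) * (X - C h) = C (b * h) * X + C (-(b * h * h)) := by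
      rw [C_neg, C_mul (a := b * h) (b := h)]; ring
    have e2 : C b * (X - C h) = C b * X + C (-(b * h)) := by
      rw [C_neg, C_mul]; ring
    rw [e1, e2]
    intro i
    constructor
    · refine lin_coeff_lt hr (by rw [sub_self, norm_zero]; exact hr) ?_ i
      have : b * τ ^ 2 - b * h * h - -(b * h * h) = b * τ ^ 2 := by ring
      rw [this]
      exact hτn
    · rw [sub_self, norm_zero]; exact hr
  have hrob2 : Robust 2 ((C (b * h) * X + C (b * τ ^ 2 - b * h * h)) * (X - C h'))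
      ((C b * X + C (-(b * h))) * (X - C h')) := by
    apply hnear
    have := hmul _ _ _ _ hn
    rwa [mul_assoc (C (b * h)), mul_assoc (C b)] at this
  refine mob_eig hcop hdeg ⟨b * τ, -(b * τ), by rw [norm_neg], ?_, ?_⟩ (b := h') ?_ hrob2
  · rw [lin_c1, lin_c0]
    ring
  · rw [lin_c1, lin_c0, lin_c1, lin_c0]
    ring
  · simp only [eval_add, eval_mul, eval_C, eval_X]
    intro h0
    have h1 : b * (τ ^ 2 - (h' - h) ^ 2) = 0 := by linear_combination h0
    rcases mul_eq_zero.1 h1 with h2 | h2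
    · exact hb h2
    · exact hτh (sub_eq_zero.1 h2)

end Pool.Agent.H32.RC
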