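import Pool.Agent.H32.RB.Final
import Pool.Agent.H32.RC.ConstN
import Pool.Agent.H32.RC.Const

set_option autoImplicit false

open Filter Topology Polynomial OnePoint Metric Set

namespace Pool.Agent.H32.RC

open Pool.Agent.H44.Fatou Pool.Agent.H32.BT Pool.Agent.H32.RB

theorem hole_coe' {k : ℕ} {H : Polynomial ℂ} {z : ℂ} :
    Hole k H (z : OnePoint ℂ) ↔ H.eval z = 0 := by
  constructor
  · rintro (⟨h, h1, h2⟩ | ⟨h1, -⟩)
    · rw [OnePoint.coe_injective h1]
      exact h2
    · exact absurd h1 (OnePoint.coe_ne_infty z)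
  · intro h
    exact Or.inl ⟨z, rfl, h⟩

/-- transport to a chart over a constant -/
theorem const_chart {a b s : ℂ} {k : ℕ} (hk : 1 ≤ k) {H : Polynomial ℂ} (hH : H.natDegree ≤ k) :
    Robust k (C b * reflect k (H.comp (X + C s))) (C (a - s * b) * reflect k (H.comp (X + C s))) ↔
      Robust k (C a * H) (C b * H) := by
  have hm := cj_mul s (e := 0) (k := k) (A := C a) (B := C b) (H := H) (natDegree_C a).le
    (natDegree_C b).le hH
  rw [zero_add] at hm
  obtain ⟨m1, m2⟩ := hm
  have c1 : cj1 s 0 (C a) (C b) = C b := by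
    unfold cj1
    rw [C_comp]
    ext i
    rcases i with _ | i
    · simp
    · simp [coeff_reflect, coeff_C]
  have c2 : cj2 s 0 (C a) (C b) = C (a - s * b) := by
    unfold cj2
    rw [← C_mul, ← C_sub, C_comp]
    ext i
    rcases i with _ | i
    · simp
    · simp [coeff_reflect, coeff_C]
  rw [c1] at m1
  rw [c2] at m2
  rw [← m1, ← m2]
  exact robust_cj s hk ((natDegree_C_mul_le _ _).trans hH) ((natDegree_C_mul_le _ _).trans hH)

/-- exact characterisation over a constant, in terms of simple holes and the value -/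
theorem robust_iff_good0 {a b : ℂ} {H : Polynomial ℂ} {k : ℕ} (hab : a ≠ 0 ∨ b ≠ 0) (hk : 2 ≤ k)
    (hH0 : H ≠ 0) (hH : H.natDegree ≤ k) :
    Robust k (C a * H) (C b * H) ↔
      ((∀ h : ℂ, H.eval h = 0 → (derivative H).eval h ≠ 0) ∧ k ≤ H.natDegree + 1) ∧
        ¬ Hole k H (pt a b) := by
  -- a good chart
  obtain ⟨s, hs, hsab⟩ : ∃ s : ℂ, H.eval s ≠ 0 ∧ a - s * b ≠ 0 := by
    have h1 : H * (C a - C b * X) ≠ 0 := by
      refine mul_ne_zero hH0 ?_
      intro h
      have e0 := congrArg (fun p => coeff p 0) h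
      have e1 := congrArg (fun p => coeff p 1) h
      simp [coeff_C] at e0 e1
      rcases hab with h2 | h2
      · exact h2 e0
      · exact h2 e1
    by_contra hcon
    push Not at hcon
    apply h1
    apply Polynomial.funext
    intro s
    rw [eval_mul, eval_sub, eval_C, eval_mul, eval_C, eval_X, eval_zero]
    by_cases h2 : H.eval s = 0
    · rw [h2, zero_mul]
    · rw [show a - b * s = a - s * b by ring, hcon s h2, mul_zero]
  obtain ⟨φ, hφ1, hφs, hφi, -⟩ := exists_mob s
  set H' := reflect k (H.comp (X + C s)) with hH'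
  have hH'0 : H' ≠ 0 := reflect_ne_zero hH0 k s
  have hGk : H'.coeff k ≠ 0 := by
    rw [hH', coeff_reflect, revAt_le le_rfl, Nat.sub_self, coeff_zero_eq_eval_zero, eval_comp,
      eval_add, eval_X, eval_C, zero_add]
    exact hs
  have hGle : H'.natDegree ≤ k := by
    apply natDegree_reflect_le'
    rw [natDegree_comp, natDegree_X_add_C, mul_one]
    exact hH
  have hHk' : H'.natDegree = k := le_antisymm hGle (le_natDegree_of_ne_zero hGk)
  set c := b / (a - s * b) with hc
  have hφc : φ (pt a b) = (c : OnePoint ℂ) := by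
    unfold pt
    split_ifs with hb
    · rw [hφi, hc, hb, zero_div]
    · rw [hφ1, hc]
      · congr 1
        have h2 : a / b - s = (a - s * b) / b := by field_simp
        rw [h2, inv_div]
      · intro h
        apply hsab
        rw [← h]
        field_simp
        ring
  have hhole : Hole k H (pt a b) ↔ H'.eval c = 0 := by
    rw [← hole_cj hH0 hH φ hφs hφ1 hφi, hφc, hole_coe']
  rw [← const_chart (s := s) (by omega) hH, ← simple_cj hH0 hH s, hhole, ← hH']
  -- scaling
  have hsc : Robust k (C b * H') (C (a - s * b) * H') ↔ Robust k (C c * H') H' := by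
    rw [← robust_smul (P := C c * H') hsab]
    have e1 : C c * H' * C (a - s * b) = C b * H' := by
      have : b = c * (a - s * b) := by rw [hc, div_mul_cancel₀ _ hsab]
      conv_rhs => rw [this, C_mul]
      ring
    rw [e1, mul_comm H' (C (a - s * b))]
  rw [hsc]
  constructor
  · intro hrob
    have two : ∀ (h h' : ℂ) (H2 : Polynomial ℂ), H' = (X - C h) * ((X - C h') * H2) →
        Robust 2 (C c * ((X - C h) * (X - C h'))) (C 1 * ((X - C h) * (X - C h'))) := by
      intro h h' H2 hH2
      have hH20 : H2 ≠ 0 := by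
        rintro rfl
        rw [mul_zero, mul_zero] at hH2
        exact hH'0 hH2
      have hd : H2.natDegree + 2 = k := by
        rw [hH2, natDegree_mul (X_sub_C_ne_zero h) (mul_ne_zero (X_sub_C_ne_zero h') hH20),
          natDegree_mul (X_sub_C_ne_zero h') hH20, natDegree_X_sub_C, natDegree_X_sub_C] at hHk'
        omega
      apply robust_reduce (i := H2.natDegree) le_rfl hH20 le_rfl
      have e1 : C c * ((X - C h) * (X - C h')) * H2 = C c * H' := by rw [hH2]; ring
      have e2 : C 1 * ((X - C h) * (X - C h')) * H2 = H' := by rw [hH2, C_1]; ring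
      rw [e1, e2, show 2 + H2.natDegree = k by omega]
      exact hrob
    refine ⟨⟨?_, by omega⟩, ?_⟩
    · intro h hh hder
      obtain ⟨H1, hH1⟩ := dvd_iff_isRoot.2 hh
      have hH1h : H1.eval h = 0 := by
        rw [hH1, derivative_mul] at hder
        simpa using hder
      obtain ⟨H2, hH2⟩ := dvd_iff_isRoot.2 hH1h
      exact const_simple c 1 h (two h h H2 (by rw [hH1, hH2]))
    · intro hh
      obtain ⟨H1, hH1⟩ := dvd_iff_isRoot.2 hh
      have hH10 : H1 ≠ 0 := by
        rintro rfl
        rw [mul_zero] at hH1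
        exact hH'0 hH1
      obtain ⟨h', hh'⟩ : ∃ h' : ℂ, H1.eval h' = 0 := by
        have hdeg : H1.degree ≠ 0 := by
          rw [degree_eq_natDegree hH10]
          intro h
          have h2 : H1.natDegree = 0 := by exact_mod_cast h
          rw [hH1, natDegree_mul (X_sub_C_ne_zero c) hH10, natDegree_X_sub_C] at hHk'
          omega
        exact IsAlgClosed.exists_root H1 hdeg
      obtain ⟨H2, hH2⟩ := dvd_iff_isRoot.2 hh'
      have h3 := two c h' H2 (by rw [hH1, hH2])
      have h4 := const_val (b := 1) one_ne_zero c h'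
      rw [one_mul] at h4
      exact h4 h3
  · rintro ⟨⟨h1, -⟩, h2⟩
    exact robust_const (by omega) hHk' h1 h2

end Pool.Agent.H32.RC
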