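import Pool.Agent.H32.RB.Chart
import Pool.Agent.H32.RB.Rep
import Pool.Agent.H32.RB.MulCj

set_option autoImplicit false

open Filter Topology Polynomial OnePoint Metric Set

namespace Pool.Agent.H32.RC

open Pool.Agent.H44.Fatou Pool.Agent.H32.BT Pool.Agent.H32.RB

/-- loxodromic dynamics: attracting fixed point `a`, repelling fixed point `r` -/
def Lox (f : OnePoint ℂ → OnePoint ℂ) (a r : OnePoint ℂ) : Prop :=
  a ≠ r ∧ f a = a ∧ f r = r ∧ ∀ x, x ≠ r → Tendsto (fun n : ℕ => f^[n] x) atTop (𝓝 a)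

/-- the two eigenvalues of the matrix of the Möbius map `A / B` have equal moduli -/
def EqMod (A B : Polynomial ℂ) : Prop :=
  ∃ l1 l2 : ℂ, ‖l1‖ = ‖l2‖ ∧ l1 + l2 = A.coeff 1 + B.coeff 0 ∧
    l1 * l2 = A.coeff 1 * B.coeff 0 - A.coeff 0 * B.coeff 1

end Pool.Agent.H32.RC
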