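import Pool.Agent.H32.RB.Lim
import Pool.Agent.H32.RC.Defs

set_option autoImplicit false

open Filter Topology Polynomial OnePoint Metric Set

namespace Pool.Agent.H32.RC

open Pool.Agent.H44.Fatou Pool.Agent.H32.BT Pool.Agent.H32.RB

/-- **limit cycle**: a family with attracted marked point has a limit cycle which is attracting -/
theorem cyc_lim {D : ℕ} {P Q : ℂ → Polynomial ℂ} {v : ℂ → ℂ} {δ : ℝ} (F : GFam D P Q v δ) :
    ∃ (p : ℕ) (x : ℕ → ℂ), x p = x 0 ∧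
      (∀ j, (Q 0).eval (x j) ≠ 0 ∧ (P 0).eval (x j) / (Q 0).eval (x j) = x (j + 1)) ∧
      ‖∏ j ∈ Finset.range p, (Wr (P 0) (Q 0)).eval (x j) / ((Q 0).eval (x j)) ^ 2‖ < 1 := by
  have hδ := F.hδ
  obtain ⟨hspec, hdiff⟩ := hg_spec F
  have hloc := contr_gen F
  obtain ⟨p, m, q, C, hp, hq0, hq1, hdisc⟩ := disc_of_circle hδ (hg P Q v) hdiff hloc
  have hδ2 : 0 < δ / 2 := by positivity
  have hsub : ball (0 : ℂ) (δ / 2) ⊆ ball 0 δ := ball_subset_ball (by linarith)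
  obtain ⟨a, ha, hper, hlim⟩ := limit_cycle hδ2 (hg P Q v) hp hq0 hq1
    (fun n => (hdiff n).mono hsub) (fun t ht => hdisc t (ball_subset_closedBall ht))
  obtain ⟨hst, hml⟩ := mult_gen (F.mono hδ2 (by linarith)) hp a ha hper hlim
  refine ⟨p, fun j => a j 0, ?_, hst, hml⟩
  have := hper 0 0 (mem_ball_self hδ2)
  rwa [zero_add] at this

end Pool.Agent.H32.RC
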