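import Pool.Agent.H32.RC.FixAff

set_option autoImplicit false

open Filter Topology Polynomial OnePoint Metric Set

namespace Pool.Agent.H32.RC

open Pool.Agent.H44.Fatou Pool.Agent.H32.BT Pool.Agent.H32.RB

private lemma fr_det_ne {a1 a0 b1 b0 : ℂ}
    (hcop : IsCoprime (C a1 * X + C a0 : Polynomial ℂ) (C b1 * X + C b0))
    (hdeg : max (C a1 * X + C a0 : Polynomial ℂ).natDegree
      (C b1 * X + C b0 : Polynomial ℂ).natDegree = 1) :
    a1 * b0 - a0 * b1 ≠ 0 := by
  intro hD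
  have hnz : ∀ z : ℂ, ¬ (a1 * z + a0 = 0 ∧ b1 * z + b0 = 0) := by
    rintro z ⟨h1, h2⟩
    obtain ⟨s, t, hst⟩ := hcop
    have := congrArg (Polynomial.eval z) hst
    simp [h1, h2] at this
  by_cases hb : b1 = 0
  · subst hb
    by_cases ha : a1 = 0
    · subst ha
      simp at hdeg
    · have hb0 : b0 = 0 := by
        have : a1 * b0 = 0 := by linear_combination hD
        exact (mul_eq_zero.mp this).resolve_left ha
      apply hnz (-a0 / a1)
      refine ⟨by field_simp; ring, by rw [hb0]; ring⟩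
  · apply hnz (-b0 / b1)
    constructor
    · field_simp
      linear_combination -hD
    · field_simp; ring

private lemma fr_cop {a1 a0 b1 b0 : ℂ} (hD : a1 * b0 - a0 * b1 ≠ 0) :
    IsCoprime (C a1 * X + C a0 : Polynomial ℂ) (C b1 * X + C b0) := by
  refine ⟨C (-b1 * (a1 * b0 - a0 * b1)⁻¹), C (a1 * (a1 * b0 - a0 * b1)⁻¹), ?_⟩
  have h1 : C (-b1 * (a1 * b0 - a0 * b1)⁻¹) * (C a1 * X + C a0 : Polynomial ℂ) +
      C (a1 * (a1 * b0 - a0 * b1)⁻¹) * (C b1 * X + C b0) =
      C ((a1 * b0 - a0 * b1) * (a1 * b0 - a0 * b1)⁻¹) := by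
    simp only [C_mul, C_neg, C_sub]
    ring
  rw [h1, mul_inv_cancel₀ hD, C_1]

private lemma fr_nd (a1 a0 : ℂ) : (C a1 * X + C a0 : Polynomial ℂ).natDegree ≤ 1 :=
  natDegree_linear_le

private lemma fr_max {a1 a0 b1 b0 : ℂ} (hD : a1 * b0 - a0 * b1 ≠ 0) :
    max (C a1 * X + C a0 : Polynomial ℂ).natDegree
      (C b1 * X + C b0 : Polynomial ℂ).natDegree = 1 := by
  by_cases ha : a1 = 0
  · have hb : b1 ≠ 0 := by
      rintro rfl
      apply hD
      rw [ha]; ring
    rw [natDegree_linear hb]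
    exact max_eq_right (fr_nd _ _)
  · rw [natDegree_linear ha]
    exact max_eq_left (fr_nd _ _)

private lemma fr_step1 {A B : Polynomial ℂ}
    (hdeg : max A.natDegree B.natDegree = 1) {b : ℂ} (hB : B.eval b ≠ 0)
    (hA : A.eval b = b * B.eval b) (hb1 : B.coeff 1 = 0)
    (hL : ‖(Wr A B).eval b / (B.eval b) ^ 2‖ ≠ 1) :
    ¬ Robust 2 (A * (X - C b)) (B * (X - C b)) := by
  have hA1 : A.natDegree ≤ 1 := by rw [← hdeg]; exact le_max_left _ _
  have hB1 : B.natDegree ≤ 1 := by rw [← hdeg]; exact le_max_right _ _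
  obtain ⟨a1, a0, rfl⟩ := exists_eq_X_add_C_of_natDegree_le_one hA1
  obtain ⟨b1, b0, rfl⟩ := exists_eq_X_add_C_of_natDegree_le_one hB1
  have hb1' : b1 = 0 := by simpa using hb1
  subst hb1'
  have hB' : b0 ≠ 0 := by simpa using hB
  have hA' : a1 * b + a0 = b * b0 := by simpa using hA
  have ha1 : a1 ≠ 0 := by
    rintro rfl
    simp at hdeg
  have hLe : (Wr (C a1 * X + C a0) (C 0 * X + C b0)).eval b /
      ((C 0 * X + C b0 : Polynomial ℂ).eval b) ^ 2 = a1 / b0 := by
    simp [Wr]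
    field_simp
  rw [hLe] at hL
  have hfa := fix_aff b (a1 / b0) (div_ne_zero ha1 hB') hL
  intro hrob
  apply hfa
  rw [← robust_smul hB']
  have e1 : (C b + C (a1 / b0) * (X - C b)) * (X - C b) * C b0 =
      (C a1 * X + C a0) * (X - C b) := by
    have h2 : (C (a1 / b0) * C b0 : Polynomial ℂ) = C a1 := by
      rw [← C_mul, div_mul_cancel₀ _ hB']
    have h3 : (C a1 * C b + C a0 : Polynomial ℂ) = C b * C b0 := by
      rw [← C_mul, ← C_mul, ← C_add, hA']
    linear_combination (X - C b) * (X - C b) * h2 - (X - C b) * h3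
  have e2 : ((X - C b) * C b0 : Polynomial ℂ) = (C 0 * X + C b0) * (X - C b) := by
    rw [C_0]; ring
  rw [e1, e2]
  exact hrob

private lemma fr_step2 {A B : Polynomial ℂ} (hcop : IsCoprime A B)
    (hdeg : max A.natDegree B.natDegree = 1) {b : ℂ} (hB : B.eval b ≠ 0)
    (hA : A.eval b = b * B.eval b)
    (hL : ‖(Wr A B).eval b / (B.eval b) ^ 2‖ ≠ 1) :
    ¬ Robust 2 (A * (X - C b)) (B * (X - C b)) := by
  by_cases hb1 : B.coeff 1 = 0
  · exact fr_step1 hdeg hB hA hb1 hL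
  have hA1 : A.natDegree ≤ 1 := by rw [← hdeg]; exact le_max_left _ _
  have hB1 : B.natDegree ≤ 1 := by rw [← hdeg]; exact le_max_right _ _
  -- the other fixed point
  obtain ⟨p, hpb, hp⟩ : ∃ p : ℂ, b ≠ p ∧ A.eval p = p * B.eval p := by
    obtain ⟨a1, a0, rfl⟩ := exists_eq_X_add_C_of_natDegree_le_one hA1
    obtain ⟨b1, b0, rfl⟩ := exists_eq_X_add_C_of_natDegree_le_one hB1
    have hb1' : b1 ≠ 0 := by simpa using hb1
    have hB' : b1 * b + b0 ≠ 0 := by simpa using hB
    have hA' : a1 * b + a0 = b * (b1 * b + b0) := by simpa using hA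
    refine ⟨(a1 - b0) / b1 - b, ?_, ?_⟩
    · intro h
      apply hL
      have h2 : 2 * b1 * b = a1 - b0 := by
        have : b * b1 = ((a1 - b0) / b1 - b) * b1 := by rw [← h]
        rw [sub_mul, div_mul_cancel₀ _ hb1'] at this
        linear_combination this
      have hLe : (Wr (C a1 * X + C a0) (C b1 * X + C b0)).eval b /
          ((C b1 * X + C b0 : Polynomial ℂ).eval b) ^ 2 = 1 := by
        have e1 : (Wr (C a1 * X + C a0) (C b1 * X + C b0)).eval b = (b1 * b + b0) ^ 2 := by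
          simp [Wr]
          linear_combination (-b1) * hA' - (b1 * b + b0) * h2
        have e2 : (C b1 * X + C b0 : Polynomial ℂ).eval b = b1 * b + b0 := by simp
        rw [e1, e2]
        exact div_self (pow_ne_zero 2 hB')
      rw [hLe, norm_one]
    · have h3 : b1 * ((a1 - b0) / b1 - b) = a1 - b0 - b1 * b := by
        field_simp
      simp only [eval_add, eval_mul, eval_C, eval_X]
      rw [h3]
      set q := (a1 - b0) / b1 - b with hq
      linear_combination hA' + b * h3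
  obtain ⟨φ, -, -, -, hcop', hdeg', -, -⟩ := chart_at hcop hdeg le_rfl p
  obtain ⟨m1, m2, m3⟩ := mult_cj hA1 hB1 hpb hA hB
  have hc0 : (cj2 p 1 A B).coeff 1 = 0 := by
    unfold cj2
    rw [coeff_reflect, revAt_le le_rfl, Nat.sub_self, coeff_zero_eq_eval_zero]
    simp only [eval_comp, eval_add, eval_X, eval_C, eval_sub, eval_mul, zero_add]
    rw [hp, sub_self]
  have h1 := fr_step1 hdeg' m1 m2 hc0 (by rw [m3]; exact hL)
  intro hrob
  apply h1
  exact (transport_one hA1 hB1 le_rfl hpb).2 hrob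

theorem not_robust_fix1 {A B : Polynomial ℂ} (hcop : IsCoprime A B)
    (hdeg : max A.natDegree B.natDegree = 1) {b : ℂ} (hB : B.eval b ≠ 0)
    (hA : A.eval b = b * B.eval b) :
    ¬ Robust 2 (A * (X - C b)) (B * (X - C b)) := by
  by_cases hL : ‖(Wr A B).eval b / (B.eval b) ^ 2‖ ≠ 1
  · exact fr_step2 hcop hdeg hB hA hL
  push Not at hL
  intro hrob
  obtain ⟨ρ, hρ, hnear⟩ := hrob.near
  obtain ⟨r, hr, hmul⟩ := mul_near2 (X - C b) hρ
  have hA1 : A.natDegree ≤ 1 := by rw [← hdeg]; exact le_max_left _ _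
  have hB1 : B.natDegree ≤ 1 := by rw [← hdeg]; exact le_max_right _ _
  obtain ⟨a1, a0, rfl⟩ := exists_eq_X_add_C_of_natDegree_le_one hA1
  obtain ⟨b1, b0, rfl⟩ := exists_eq_X_add_C_of_natDegree_le_one hB1
  have hD := fr_det_ne hcop hdeg
  have eB : (C b1 * X + C b0 : Polynomial ℂ).eval b = b1 * b + b0 := by simp
  have hB' : b1 * b + b0 ≠ 0 := by rwa [eB] at hB
  have hA' : a1 * b + a0 = b * (b1 * b + b0) := by simpa using hA
  have eW : ∀ a1 a0 : ℂ, (Wr (C a1 * X + C a0) (C b1 * X + C b0)).eval b = a1 * b0 - a0 * b1 := by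
    intro a1 a0
    simp [Wr]
    ring
  rw [eW, eB] at hL
  -- small parameter
  set lam := b1 * b + b0 with hlam
  set s0 : ℂ := (a1 * b0 - a0 * b1) / lam with hs0
  obtain ⟨t, ht, ht1⟩ : ∃ t : ℝ, 0 < t ∧ t * (‖s0‖ * (1 + ‖b‖)) < r := by
    refine ⟨r / (2 * (‖s0‖ * (1 + ‖b‖) + 1)), by positivity, ?_⟩
    rw [div_mul_eq_mul_div, div_lt_iff₀ (by positivity)]
    have : 0 ≤ ‖s0‖ * (1 + ‖b‖) := by positivity
    nlinarith
  set s : ℂ := (t : ℂ) * s0 with hs
  have hsl : s * lam = t * (a1 * b0 - a0 * b1) := by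
    rw [hs, hs0, mul_assoc, div_mul_cancel₀ _ hB']
  have hD' : (a1 + s) * b0 - (a0 - s * b) * b1 = (1 + t) * (a1 * b0 - a0 * b1) := by
    linear_combination hsl
  have h1t : (1 + t : ℂ) ≠ 0 := by
    intro h
    have := congrArg Complex.re h
    simp at this
    linarith
  have hD'' : (a1 + s) * b0 - (a0 - s * b) * b1 ≠ 0 := by
    rw [hD']
    exact mul_ne_zero h1t hD
  have hA'' : (C (a1 + s) * X + C (a0 - s * b) : Polynomial ℂ).eval b =
      b * (C b1 * X + C b0 : Polynomial ℂ).eval b := by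
    rw [eB]
    simp
    linear_combination hA'
  have hL' : ‖(Wr (C (a1 + s) * X + C (a0 - s * b)) (C b1 * X + C b0)).eval b /
      ((C b1 * X + C b0 : Polynomial ℂ).eval b) ^ 2‖ ≠ 1 := by
    rw [eW, eB, hD', mul_div_assoc, norm_mul, hL, mul_one]
    have : ‖(1 + t : ℂ)‖ = 1 + t := by
      have : (1 + t : ℂ) = ((1 + t : ℝ) : ℂ) := by push_cast; rfl
      rw [this, Complex.norm_real, Real.norm_of_nonneg (by linarith)]
    rw [this]
    linarith
  refine fr_step2 (fr_cop hD'') (fr_max hD'') hB hA'' hL' (hnear _ _ (hmul _ _ _ _ ?_))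
  have hsn : ‖s‖ * (1 + ‖b‖) < r := by
    rw [hs, norm_mul, Complex.norm_real, Real.norm_of_nonneg ht.le, mul_assoc]
    exact ht1
  have hsn0 : 0 ≤ ‖s‖ * ‖b‖ := by positivity
  have hsn1 : 0 ≤ ‖s‖ := norm_nonneg _
  intro i
  constructor
  · have e : (C (a1 + s) * X + C (a0 - s * b) : Polynomial ℂ).coeff i -
        (C a1 * X + C a0 : Polynomial ℂ).coeff i = (C s * X - C (s * b) : Polynomial ℂ).coeff i := by
      rw [← coeff_sub]
      congr 1
      simp only [C_add, C_sub]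
      ring
    rw [e]
    rcases i with _ | _ | i
    · simp
      nlinarith
    · simp
      nlinarith
    · simp
      exact hr
  · simp [hr]

end Pool.Agent.H32.RC
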