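import Pool.Agent.H32.RC.Defs

set_option autoImplicit false

open Filter Topology Polynomial OnePoint Metric Set

namespace Pool.Agent.H32.RC

open Pool.Agent.H44.Fatou Pool.Agent.H32.BT Pool.Agent.H32.RB

theorem mob_det_ne {A B : Polynomial ℂ} (hcop : IsCoprime A B)
    (hdeg : max A.natDegree B.natDegree = 1) :
    A.coeff 1 * B.coeff 0 - A.coeff 0 * B.coeff 1 ≠ 0 := by
  intro hD
  obtain ⟨hA, hB⟩ := natDegree_le_of_max hdeg
  have key : C (B.coeff 1) * A = C (A.coeff 1) * B := by
    ext i
    rw [coeff_C_mul, coeff_C_mul]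
    rcases i with _ | _ | n
    · linear_combination (-1 : ℂ) * hD
    · rw [zero_add]; ring
    · rw [coeff_eq_zero_of_natDegree_lt (show A.natDegree < n + 1 + 1 by omega),
        coeff_eq_zero_of_natDegree_lt (show B.natDegree < n + 1 + 1 by omega)]
      ring
  by_cases hb : B.coeff 1 = 0
  · have ha : A.coeff 1 ≠ 0 := by
      intro ha
      have h1 : A.natDegree ≤ 0 := by
        rw [natDegree_le_iff_coeff_eq_zero]
        intro N hN
        rcases Nat.lt_or_ge 1 N with h | h
        · exact coeff_eq_zero_of_natDegree_lt (by omega)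
        · have : N = 1 := by omega
          rw [this]; exact ha
      have h2 : B.natDegree ≤ 0 := by
        rw [natDegree_le_iff_coeff_eq_zero]
        intro N hN
        rcases Nat.lt_or_ge 1 N with h | h
        · exact coeff_eq_zero_of_natDegree_lt (by omega)
        · have : N = 1 := by omega
          rw [this]; exact hb
      omega
    rw [hb, C_0, zero_mul] at key
    have hB0 : B = 0 := by
      rcases mul_eq_zero.1 key.symm with h | h
      · exact absurd (C_eq_zero.1 h) ha
      · exact h
    rw [hB0, isCoprime_zero_right] at hcop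
    have h0 : A.natDegree = 0 := natDegree_eq_zero_of_isUnit hcop
    rw [h0, hB0, natDegree_zero] at hdeg
    simp at hdeg
  · have hu : IsUnit (C (B.coeff 1) : Polynomial ℂ) := isUnit_C.2 (isUnit_iff_ne_zero.2 hb)
    have hdvd : B ∣ C (B.coeff 1) * A := key ▸ dvd_mul_left B _
    have hdvd2 : B ∣ A := (hu.dvd_mul_left).1 hdvd
    have hBu : IsUnit B := hcop.symm.isUnit_of_dvd' (dvd_refl _) hdvd2
    have h0 : B.natDegree = 0 := natDegree_eq_zero_of_isUnit hBu
    exact hb (coeff_eq_zero_of_natDegree_lt (by omega))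

theorem wr_one {A B : Polynomial ℂ} (hA : A.natDegree ≤ 1) (hB : B.natDegree ≤ 1) (z : ℂ) :
    (Wr A B).eval z = A.coeff 1 * B.coeff 0 - A.coeff 0 * B.coeff 1 := by
  have eA : A = C (A.coeff 1) * X + C (A.coeff 0) := eq_X_add_C_of_natDegree_le_one hA
  have eB : B = C (B.coeff 1) * X + C (B.coeff 0) := eq_X_add_C_of_natDegree_le_one hB
  unfold Wr
  generalize A.coeff 1 = a1 at *
  generalize A.coeff 0 = a0 at *
  generalize B.coeff 1 = b1 at *
  generalize B.coeff 0 = b0 at *
  subst eA eB
  simp
  ring

/-- a Möbius map has no critical points -/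
theorem mob_not_crit {A B : Polynomial ℂ} (hcop : IsCoprime A B)
    (hdeg : max A.natDegree B.natDegree = 1) (x : OnePoint ℂ) : ¬ IsCrit (rat A B) x := by
  intro hc
  obtain ⟨hA, hB⟩ := natDegree_le_of_max hdeg
  have hD := mob_det_ne hcop hdeg
  induction x using OnePoint.rec with
  | infty =>
    have h := crit_infty hc
    have hdg : dg A B = 1 := hdeg
    rw [hdg, wr_one (natDegree_reflect_le' hA) (natDegree_reflect_le' hB)] at h
    simp only [coeff_reflect] at h
    rw [revAt_le le_rfl, revAt_le (Nat.zero_le 1)] at h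
    apply hD
    linear_combination (-1 : ℂ) * h
  | coe c =>
    have h := crit_coe hc
    rw [wr_one hA hB] at h
    exact hD h

end Pool.Agent.H32.RC
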