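import Pool.Agent.H32.RC.Defs

set_option autoImplicit false

open Filter Topology Polynomial OnePoint Metric Set

namespace Pool.Agent.H32.RC

open Pool.Agent.H44.Fatou Pool.Agent.H32.BT Pool.Agent.H32.RB

/-
PROOF of eqMod_cj: write A = a1 X + a0, B = b1 X + b0. cj1 s 1 A B = (b0 + b1 s) X + b1,
cj2 s 1 A B = (a0 - s b0 + s (a1 - s b1)) X + (a1 - s b1) (unfold cj1 cj2; coefficients of
reflect 1 ((..).comp (X + C s)): coeff_reflect, and for a polynomial R of degree <= 1,
(R.comp (X + C s)).coeff 0 = R.eval s, .coeff 1 = R.coeff 1). Trace a1 + b0 and determinant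
a1 b0 - a0 b1 are unchanged (ring), so both sides of the iff are the same statement.
PROOF of lox_or_eqMod. Affine case B.coeff 1 = 0: B = C beta, A = alpha X + gamma, alpha, beta not 0.
Sphere: infinity is fixed, z maps to (alpha z + gamma) / beta. q = alpha / beta.
 |q| = 1: EqMod with l1 = alpha, l2 = beta.
 |q| < 1: a = gamma / (beta - alpha), r = infinity; f^[n] z = a + q^n (z - a) tends to a.
 |q| > 1: r = gamma / (beta - alpha), a = infinity; f^[n] z = r + q^n (z - r) tends to infinity for
   z not r (norm tends to atTop: tendsto_infty / nhds_infty, cobounded, see how BT or H44 files prove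
   convergence to infinity, e.g. OnePoint.tendsto_nhds_infty), f^[n] infinity = infinity.
General case B.coeff 1 not 0: A - X B has degree 2, hence a root p (Complex.exists_root / IsAlgClosed),
B p not 0 by coprimality, so p is fixed. Chart at p (chart_at, RB/Chart.lean): infinity is a fixed point of
g = rat (cj1 p 1 A B) (cj2 p 1 A B), so (cj2 p 1 A B).coeff 1 = 0 (its value is (A - p B).eval p = 0). The
affine case gives Lox g a' r' or EqMod of the cj pair; transport back by phi (iter_conj, phi a homeomorphism: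
Lox f (phi.symm a') (phi.symm r')) or by eqMod_cj.
-/

theorem mc_coeff0 (s : ℂ) {R : Polynomial ℂ} (hR : R.natDegree ≤ 1) :
    (reflect 1 (R.comp (X + C s))).coeff 0 = R.coeff 1 := by
  rw [coeff_reflect, revAt_le (by norm_num)]
  exact mob_coeff_comp s hR

theorem mc_eval (s : ℂ) {R : Polynomial ℂ} (hR : R.natDegree ≤ 1) :
    R.eval s = R.coeff 0 + R.coeff 1 * s := by
  rw [eval_eq_sum_range' (show R.natDegree < 2 by omega) s]
  simp [Finset.sum_range_succ]

theorem eqMod_cj {A B : Polynomial ℂ} (hA : A.natDegree ≤ 1) (hB : B.natDegree ≤ 1) (s : ℂ) :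
    EqMod (cj1 s 1 A B) (cj2 s 1 A B) ↔ EqMod A B := by
  have e1 : (cj1 s 1 A B).coeff 1 = B.coeff 0 + B.coeff 1 * s := by
    rw [mob_cj1_coeff, mc_eval s hB]
  have e2 : (cj1 s 1 A B).coeff 0 = B.coeff 1 := mc_coeff0 s hB
  have e3 : (cj2 s 1 A B).coeff 1 = A.coeff 0 + A.coeff 1 * s - s * (B.coeff 0 + B.coeff 1 * s) := by
    rw [mob_cj2_coeff, mc_eval s hB, mc_eval s hA]
  have e4 : (cj2 s 1 A B).coeff 0 = A.coeff 1 - s * B.coeff 1 := by
    unfold cj2
    rw [mc_coeff0 s (mob_deg2 s hA hB), coeff_sub, coeff_C_mul]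
  unfold EqMod
  rw [e1, e2, e3, e4]
  have t1 : B.coeff 0 + B.coeff 1 * s + (A.coeff 1 - s * B.coeff 1) =
      A.coeff 1 + B.coeff 0 := by ring
  have t2 : (B.coeff 0 + B.coeff 1 * s) * (A.coeff 1 - s * B.coeff 1) -
      B.coeff 1 * (A.coeff 0 + A.coeff 1 * s - s * (B.coeff 0 + B.coeff 1 * s)) =
      A.coeff 1 * B.coeff 0 - A.coeff 0 * B.coeff 1 := by ring
  rw [t1, t2]

theorem mc_affine {A B : Polynomial ℂ} (hcop : IsCoprime A B)
    (hdeg : max A.natDegree B.natDegree = 1) (hB1 : B.coeff 1 = 0) :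
    (∃ a r : OnePoint ℂ, Lox (rat A B) a r) ∨ EqMod A B := by
  obtain ⟨hA, hB⟩ := natDegree_le_of_max hdeg
  have hB0 : B.natDegree = 0 := by
    by_contra h
    have h1 : B.natDegree = 1 := by omega
    have h2 : B.coeff B.natDegree ≠ 0 := by
      have : B ≠ 0 := by
        intro h3
        rw [h3] at h1
        simp at h1
      exact leadingCoeff_ne_zero.2 this
    rw [h1] at h2
    exact h2 hB1
  have hA1 : A.natDegree = 1 := by omega
  set α := A.coeff 1 with hα
  set β := B.coeff 0 with hβ
  set γ := A.coeff 0 with hγ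
  have hα0 : α ≠ 0 := by
    have h2 : A.coeff A.natDegree ≠ 0 := by
      have : A ≠ 0 := by
        intro h3
        rw [h3] at hA1
        simp at hA1
      exact leadingCoeff_ne_zero.2 this
    rwa [hA1] at h2
  have hβ0 : β ≠ 0 := by
    intro h
    have hB' : B = 0 := by
      rw [eq_C_of_natDegree_eq_zero hB0, ← hβ, h, C_0]
    rw [hB'] at hcop
    have hu : IsUnit A := isCoprime_zero_right.1 hcop
    have := natDegree_eq_zero_of_isUnit hu
    omega
  have hBC : ∀ z : ℂ, B.eval z = β := by
    intro z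
    rw [mc_eval z hB, hB1]
    ring
  have hAC : ∀ z : ℂ, A.eval z = γ + α * z := fun z => mc_eval z hA
  have hcoe : ∀ z : ℂ, rat A B (z : OnePoint ℂ) = (((γ + α * z) / β : ℂ) : OnePoint ℂ) := by
    intro z
    rw [rat_coe_of_ne (by rw [hBC]; exact hβ0), hAC, hBC]
  have hinf : rat A B ∞ = ∞ := by
    rw [rat_infty]
    have : dg A B = 1 := hdeg
    rw [this, hB1]
    simp [pt]
  by_cases hq : ‖α‖ = ‖β‖
  · right
    refine ⟨α, β, hq, rfl, ?_⟩
    rw [hB1]
    ring
  left
  have hne : β - α ≠ 0 := by
    intro h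
    apply hq
    rw [sub_eq_zero.1 h]
  set w : ℂ := γ / (β - α) with hw
  have hfw : ∀ z : ℂ, (γ + α * z) / β = w + (α / β) * (z - w) := by
    intro z
    rw [hw]
    field_simp
    ring
  have hiter : ∀ (n : ℕ) (z : ℂ),
      (rat A B)^[n] (z : OnePoint ℂ) = ((w + (α / β) ^ n * (z - w) : ℂ) : OnePoint ℂ) := by
    intro n
    induction n with
    | zero => intro z; simp
    | succ n ih =>
      intro z
      rw [Function.iterate_succ_apply', ih, hcoe, hfw]
      congr 1
      rw [pow_succ]
      ring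
  have hiterinf : ∀ n : ℕ, (rat A B)^[n] ∞ = ∞ := fun n => Function.iterate_fixed hinf n
  have hwfix : rat A B (w : OnePoint ℂ) = (w : OnePoint ℂ) := by
    have := hiter 1 w
    simpa using this
  rcases lt_or_gt_of_ne hq with hlt | hgt
  · refine ⟨(w : OnePoint ℂ), ∞, OnePoint.coe_ne_infty w, hwfix, hinf, ?_⟩
    intro x hx
    induction x using OnePoint.rec with
    | infty => exact absurd rfl hx
    | coe z =>
      simp only [hiter]
      have hlim : Tendsto (fun n : ℕ => w + (α / β) ^ n * (z - w)) atTop (𝓝 (w + 0 * (z - w))) := by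
        refine tendsto_const_nhds.add (Tendsto.mul_const _ ?_)
        apply tendsto_pow_atTop_nhds_zero_of_norm_lt_one
        rw [norm_div, div_lt_one (norm_pos_iff.2 hβ0)]
        exact hlt
      rw [zero_mul, add_zero] at hlim
      exact (OnePoint.continuous_coe.tendsto w).comp hlim
  · refine ⟨∞, (w : OnePoint ℂ), (OnePoint.coe_ne_infty w).symm, hinf, hwfix, ?_⟩
    intro x hx
    induction x using OnePoint.rec with
    | infty => simp only [hiterinf]; exact tendsto_const_nhds
    | coe z =>
      simp only [hiter]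
      have hzw : z - w ≠ 0 := by
        intro h
        exact hx (by rw [sub_eq_zero.1 h])
      have hlim : Tendsto (fun n : ℕ => ‖w + (α / β) ^ n * (z - w)‖) atTop atTop := by
        have h1 : Tendsto (fun n : ℕ => ‖α / β‖ ^ n) atTop atTop := by
          apply tendsto_pow_atTop_atTop_of_one_lt
          rw [norm_div, one_lt_div (norm_pos_iff.2 hβ0)]
          exact hgt
        have h2 : Tendsto (fun n : ℕ => ‖α / β‖ ^ n * ‖z - w‖ - ‖w‖) atTop atTop :=
          tendsto_atTop_add_const_right _ _ (h1.atTop_mul_const (norm_pos_iff.2 hzw))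
        refine tendsto_atTop_mono (fun n => ?_) h2
        have h3 := norm_sub_norm_le ((α / β) ^ n * (z - w)) (-w)
        rw [norm_neg, sub_neg_eq_add, norm_mul, norm_pow] at h3
        rwa [add_comm w]
      intro s hs
      obtain ⟨M, hM⟩ := nhds_inf_exists hs
      rw [mem_map]
      filter_upwards [hlim.eventually_gt_atTop M] with n hn
      exact hM _ hn

theorem lox_or_eqMod {A B : Polynomial ℂ} (hcop : IsCoprime A B)
    (hdeg : max A.natDegree B.natDegree = 1) :
    (∃ a r : OnePoint ℂ, Lox (rat A B) a r) ∨ EqMod A B := by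
  by_cases hB1 : B.coeff 1 = 0
  · exact mc_affine hcop hdeg hB1
  obtain ⟨hA, hB⟩ := natDegree_le_of_max hdeg
  -- a fixed point in the plane
  obtain ⟨p, hp⟩ : ∃ p : ℂ, A.eval p - p * B.eval p = 0 := by
    have hdeg2 : (A - X * B).degree ≠ 0 := by
      have hc : (A - X * B).coeff 2 ≠ 0 := by
        rw [coeff_sub, coeff_eq_zero_of_natDegree_lt (show A.natDegree < 2 by omega),
          show (2 : ℕ) = 1 + 1 from rfl, coeff_X_mul, zero_sub]
        exact neg_ne_zero.2 hB1
      intro h
      have h2 : (A - X * B).natDegree = 0 := natDegree_eq_zero_iff_degree_le_zero.2 h.le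
      have h3 := le_natDegree_of_ne_zero hc
      omega
    obtain ⟨p, hp⟩ := IsAlgClosed.exists_root (A - X * B) hdeg2
    refine ⟨p, ?_⟩
    have h4 : (A - X * B).eval p = 0 := hp
    rw [eval_sub, eval_mul, eval_X] at h4
    exact h4
  obtain ⟨φ, hφp, hφ1, hφi, hcop', hdeg', hconj, -⟩ := chart_at hcop hdeg le_rfl p
  have hc1 : (cj2 p 1 A B).coeff 1 = 0 := by
    rw [mob_cj2_coeff]
    exact hp
  rcases mc_affine hcop' hdeg' hc1 with ⟨a, r, har, ha, hr, hl⟩ | h
  · left
    set g := rat (cj1 p 1 A B) (cj2 p 1 A B) with hg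
    have hconj' : ∀ x, φ.symm (g x) = rat A B (φ.symm x) := by
      intro x
      have h1 := hconj (φ.symm x)
      rw [φ.apply_symm_apply] at h1
      rw [h1, φ.symm_apply_apply]
    have hit : ∀ (n : ℕ) (x : OnePoint ℂ), (rat A B)^[n] x = φ.symm (g^[n] (φ x)) := by
      intro n
      induction n with
      | zero => intro x; simp
      | succ n ih =>
        intro x
        rw [Function.iterate_succ_apply', ih, Function.iterate_succ_apply', hconj']
    refine ⟨φ.symm a, φ.symm r, fun h => har (φ.symm.injective h), ?_, ?_, ?_⟩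
    · rw [← hconj', ha]
    · rw [← hconj', hr]
    · intro x hx
      have hx' : φ x ≠ r := by
        intro h
        apply hx
        rw [← h, φ.symm_apply_apply]
      simp only [hit]
      exact (φ.symm.continuous.tendsto a).comp (hl _ hx')
  · right
    exact (eqMod_cj hA hB p).1 h

end Pool.Agent.H32.RC
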