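import Pool.Agent.H32.RC.Defs

set_option autoImplicit false

open Filter Topology Polynomial OnePoint Metric Set

namespace Pool.Agent.H32.RC

open Pool.Agent.H44.Fatou Pool.Agent.H32.BT Pool.Agent.H32.RB

/-
PROOF. A = a1 X + a0, B = b1 X + b0, l1, l2 as in EqMod, D = l1 l2 not 0 (coprime and max degree 1).
A_s = A + C s * X, B_s = B + C s has matrix M + s, eigenvalues l1 + s, l2 + s (trace + 2 s, determinant
D + s (l1 + l2) + s^2 = (l1 + s)(l2 + s)). Direction: w = I * (l1 - l2) if l1 not l2, else w = 1; for real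
t put s = t w: |l1 + s| = |l2 + s| (if l1 not l2: |l1 + t w|^2 - |l2 + t w|^2 = 2 t Re ((l1 - l2) conj w) = 0).
For n >= 1 let c n (s) = sum over i < n of (l1 + s)^i (l2 + s)^(n - 1 - i), a polynomial in s with
leading coefficient n (degree n - 1), not 0: finitely many zeros. So the set of t in (0, t0) such that
c n (t w) = 0 for some n >= 1 is countable; choose t in (0, t0) outside it (an interval is uncountable, e.g.
Set.Countable.dense_compl or Cardinal), t0 small so that norm s < eps and s is not - l1, - l2.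
Coprime and max degree 1: determinant (l1 + s)(l2 + s) not 0 (for polynomials of degree <= 1 with nonzero
determinant: (b0) A - (a0) B = D X, and - b1 A + a1 B = D, so coprime; not both coefficients of X vanish).
Not fixed: A_s b - b B_s b = A b - b B b.
Not periodic: V 0 = (b, 1), V (j+1) = M_s V j, i.e. V j = (p j, q j), p (j+1) = a1' p j + a0' q j,
q (j+1) = b1' p j + b0' q j. Then (rat A_s B_s)^[j] b = pt (p j) (q j), (p j, q j) not (0,0) (induction,
determinant not 0; rat at pt: there should be a lemma, e.g. rat_pt / rat of pt in H44/Fatou; for infinity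
use rat_infty with dg = 1). Cayley-Hamilton: V (j+2) = (l1 + l2 + 2 s) V (j+1) - D_s V j, hence
V n = c n V 1 - D_s c (n-1) V 0 for n >= 1 (c 0 = 0, c 1 = 1, c (n+1) = (trace) c n - D_s c (n-1)). If
(rat)^[n+1] b = b then pt_eq: p (n+1) = b q (n+1), so c (n+1) (p 1 - b q 1) = 0, where
p 1 - b q 1 = A_s b - b B_s b not 0, so c (n+1) = 0: excluded.
-/
/-- `c n = ∑ i < n, x ^ i * y ^ (n - 1 - i)` -/
def mn_c (x y : ℂ) : ℕ → ℂ
  | 0 => 0
  | n + 1 => x ^ n + y * mn_c x y n

theorem mn_c_rec (x y : ℂ) (n : ℕ) :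
    mn_c x y (n + 2) = (x + y) * mn_c x y (n + 1) - x * y * mn_c x y n := by
  simp only [mn_c]
  ring

theorem mn_c_mul (x y : ℂ) (n : ℕ) : (x - y) * mn_c x y n = x ^ n - y ^ n := by
  induction n with
  | zero => simp [mn_c]
  | succ n ih =>
    have : (x - y) * mn_c x y (n + 1) = (x - y) * x ^ n + y * ((x - y) * mn_c x y n) := by
      simp only [mn_c]
      ring
    rw [this, ih]
    ring

theorem mn_c_self (x : ℂ) (n : ℕ) : mn_c x x (n + 1) = (n + 1) * x ^ n := by
  induction n with
  | zero => simp [mn_c]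
  | succ n ih =>
    have : mn_c x x (n + 1 + 1) = x ^ (n + 1) + x * mn_c x x (n + 1) := rfl
    rw [this, ih]
    push_cast
    ring

/-- for each `n` only finitely many parameters are bad -/
theorem mn_finite (l1 l2 : ℂ) (n : ℕ) : {s : ℂ | mn_c (l1 + s) (l2 + s) (n + 1) = 0}.Finite := by
  by_cases h : l1 = l2
  · subst h
    refine (Set.finite_singleton (-l1)).subset ?_
    intro s hs
    rw [Set.mem_ofPred_eq, mn_c_self] at hs
    have h1 : ((n : ℂ) + 1) ≠ 0 := by exact_mod_cast Nat.succ_ne_zero n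
    have h2 := (mul_eq_zero.1 hs).resolve_left h1
    have h3 : l1 + s = 0 := by
      by_contra h4
      exact pow_ne_zero n h4 h2
    rw [Set.mem_singleton_iff]
    linear_combination h3
  · set p : Polynomial ℂ := (Polynomial.X + C l1) ^ (n + 1) - (Polynomial.X + C l2) ^ (n + 1) with hp
    have hp0 : p ≠ 0 := by
      intro h0
      have h1 := congrArg (Polynomial.eval (-l1)) h0
      rw [hp] at h1
      simp only [eval_sub, eval_pow, eval_add, eval_X, eval_C, eval_zero] at h1
      rw [neg_add_cancel, zero_pow (Nat.succ_ne_zero n), zero_sub, neg_eq_zero] at h1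
      have h2 : -l1 + l2 = 0 := by
        by_contra h4
        exact pow_ne_zero _ h4 h1
      exact h (by linear_combination -h2)
    refine (p.rootSet_finite ℂ).subset ?_
    intro s hs
    rw [Set.mem_ofPred_eq] at hs
    rw [Polynomial.mem_rootSet]
    refine ⟨hp0, ?_⟩
    have h1 := mn_c_mul (l1 + s) (l2 + s) (n + 1)
    rw [hs, mul_zero] at h1
    rw [hp]
    simp only [coe_aeval_eq_eval, eval_sub, eval_pow, eval_add, eval_X, eval_C]
    rw [add_comm s l1, add_comm s l2]
    exact h1.symm

theorem mn_eval {A : Polynomial ℂ} (hA : A.natDegree ≤ 1) (z : ℂ) :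
    A.eval z = A.coeff 1 * z + A.coeff 0 := by
  conv_lhs => rw [Polynomial.eq_X_add_C_of_natDegree_le_one hA]
  simp

theorem mn_good {A B : Polynomial ℂ} (hA : A.natDegree ≤ 1) (hB : B.natDegree ≤ 1)
    (hD : A.coeff 1 * B.coeff 0 - A.coeff 0 * B.coeff 1 ≠ 0) :
    IsCoprime A B ∧ max A.natDegree B.natDegree = 1 := by
  constructor
  · set D := A.coeff 1 * B.coeff 0 - A.coeff 0 * B.coeff 1 with hDd
    refine ⟨C (-B.coeff 1 / D), C (A.coeff 1 / D), ?_⟩
    rw [Polynomial.eq_X_add_C_of_natDegree_le_one hA, Polynomial.eq_X_add_C_of_natDegree_le_one hB]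
    have h1 : C (-B.coeff 1 / D) * (C (A.coeff 1) * Polynomial.X + C (A.coeff 0)) +
        C (A.coeff 1 / D) * (C (B.coeff 1) * Polynomial.X + C (B.coeff 0)) =
        C (-B.coeff 1 / D * A.coeff 1 + A.coeff 1 / D * B.coeff 1) * Polynomial.X +
        C (-B.coeff 1 / D * A.coeff 0 + A.coeff 1 / D * B.coeff 0) := by
      simp only [C_add, C_mul]
      ring
    have h2 : -B.coeff 1 / D * A.coeff 1 + A.coeff 1 / D * B.coeff 1 = 0 := by ring
    have h3 : -B.coeff 1 / D * A.coeff 0 + A.coeff 1 / D * B.coeff 0 = 1 := by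
      field_simp
      rw [hDd]
      ring
    have h4 := h1
    rw [h2, h3, C_0, C_1, zero_mul, zero_add] at h4
    simpa using h4
  · have h1 : max A.natDegree B.natDegree ≤ 1 := max_le hA hB
    by_contra h2
    have h3 : max A.natDegree B.natDegree < 1 := lt_of_le_of_ne h1 h2
    have h4 : A.coeff 1 = 0 := coeff_eq_zero_of_natDegree_lt ((le_max_left _ _).trans_lt h3)
    have h5 : B.coeff 1 = 0 := coeff_eq_zero_of_natDegree_lt ((le_max_right _ _).trans_lt h3)
    exact hD (by rw [h4, h5]; ring)

theorem mn_det {A B : Polynomial ℂ} (hcop : IsCoprime A B)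
    (hdeg : max A.natDegree B.natDegree = 1) :
    A.coeff 1 * B.coeff 0 - A.coeff 0 * B.coeff 1 ≠ 0 := by
  intro hD
  have hA : A.natDegree ≤ 1 := (le_max_left _ _).trans hdeg.le
  have hB : B.natDegree ≤ 1 := (le_max_right _ _).trans hdeg.le
  by_cases ha : A.coeff 1 = 0
  · by_cases hb : B.coeff 1 = 0
    · have h1 : A.natDegree = 0 := by
        by_contra h
        have h2 : A.natDegree = 1 := by omega
        have h3 : A ≠ 0 := by
          rintro rfl
          simp at h2
        have h4 := leadingCoeff_ne_zero.2 h3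
        rw [leadingCoeff, h2] at h4
        exact h4 ha
      have h1' : B.natDegree = 0 := by
        by_contra h
        have h2 : B.natDegree = 1 := by omega
        have h3 : B ≠ 0 := by
          rintro rfl
          simp at h2
        have h4 := leadingCoeff_ne_zero.2 h3
        rw [leadingCoeff, h2] at h4
        exact h4 hb
      rw [h1, h1'] at hdeg
      simp at hdeg
    · rw [ha] at hD
      have h1 : A.coeff 0 = 0 := by
        have : A.coeff 0 * B.coeff 1 = 0 := by linear_combination -hD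
        exact (mul_eq_zero.1 this).resolve_right hb
      rcases coprime_eval hcop (-B.coeff 0 / B.coeff 1) with h | h
      · rw [mn_eval hA, ha, h1] at h
        exact h (by ring)
      · rw [mn_eval hB] at h
        exact h (by field_simp; ring)
  · rcases coprime_eval hcop (-A.coeff 0 / A.coeff 1) with h | h
    · rw [mn_eval hA] at h
      exact h (by field_simp; ring)
    · rw [mn_eval hB] at h
      refine h ?_
      field_simp
      linear_combination hD

theorem mn_rat_pt {A B : Polynomial ℂ} (hdeg : max A.natDegree B.natDegree = 1) {x y : ℂ}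
    (hxy : x ≠ 0 ∨ y ≠ 0) :
    rat A B (pt x y) = pt (A.coeff 1 * x + A.coeff 0 * y) (B.coeff 1 * x + B.coeff 0 * y) := by
  have hA : A.natDegree ≤ 1 := (le_max_left _ _).trans hdeg.le
  have hB : B.natDegree ≤ 1 := (le_max_right _ _).trans hdeg.le
  by_cases hy : y = 0
  · have hx : x ≠ 0 := hxy.resolve_right (fun h => h hy)
    have h1 : pt x y = ∞ := by
      unfold pt
      rw [if_pos hy]
    have h2 : dg A B = 1 := hdeg
    rw [h1, rat_infty, h2, hy, mul_zero, mul_zero, add_zero, add_zero, pt_smul hx]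
  · have h1 : pt x y = ((x / y : ℂ) : OnePoint ℂ) := by
      unfold pt
      rw [if_neg hy]
    rw [h1, rat_coe, mn_eval hA, mn_eval hB, ← pt_smul hy]
    congr 1 <;> field_simp

theorem mn_norm (l1 l2 : ℂ) (h : ‖l1‖ = ‖l2‖) : ∃ w : ℂ, w ≠ 0 ∧ ∀ t : ℝ,
    ‖l1 + t * w‖ = ‖l2 + t * w‖ := by
  by_cases he : l1 = l2
  · exact ⟨1, one_ne_zero, fun t => by rw [he]⟩
  · refine ⟨Complex.I * (l1 - l2), mul_ne_zero Complex.I_ne_zero (sub_ne_zero.2 he), fun t => ?_⟩
    have h1 : ‖l1‖ ^ 2 = ‖l2‖ ^ 2 := by rw [h]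
    rw [Complex.sq_norm, Complex.sq_norm, Complex.normSq_apply, Complex.normSq_apply] at h1
    have h2 : ‖l1 + t * (Complex.I * (l1 - l2))‖ ^ 2 = ‖l2 + t * (Complex.I * (l1 - l2))‖ ^ 2 := by
      rw [Complex.sq_norm, Complex.sq_norm, Complex.normSq_apply, Complex.normSq_apply]
      simp only [Complex.add_re, Complex.add_im, Complex.mul_re, Complex.mul_im, Complex.I_re,
        Complex.I_im, Complex.sub_re, Complex.sub_im, Complex.ofReal_re, Complex.ofReal_im]
      linear_combination h1
    exact (sq_eq_sq₀ (norm_nonneg _) (norm_nonneg _)).1 h2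

theorem mob_nonper {A B : Polynomial ℂ} (hcop : IsCoprime A B)
    (hdeg : max A.natDegree B.natDegree = 1) (hE : EqMod A B) {b : ℂ}
    (hb : A.eval b ≠ b * B.eval b) {ε : ℝ} (hε : 0 < ε) :
    ∃ s : ℂ, ‖s‖ < ε ∧ IsCoprime (A + C s * X) (B + C s) ∧
      max (A + C s * X).natDegree (B + C s).natDegree = 1 ∧ EqMod (A + C s * X) (B + C s) ∧
      (A + C s * X).eval b ≠ b * (B + C s).eval b ∧
      ∀ n : ℕ, (rat (A + C s * X) (B + C s))^[n + 1] (b : OnePoint ℂ) ≠ b := by
  have hA : A.natDegree ≤ 1 := (le_max_left _ _).trans hdeg.le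
  have hB : B.natDegree ≤ 1 := (le_max_right _ _).trans hdeg.le
  obtain ⟨l1, l2, hl, hsum, hprod⟩ := hE
  obtain ⟨w, hw0, hw⟩ := mn_norm l1 l2 hl
  have hinj : Function.Injective (fun t : ℝ => (t : ℂ) * w) := by
    intro t t' h
    have := mul_right_cancel₀ hw0 h
    exact_mod_cast this
  set S : Set ℝ := (⋃ n : ℕ, (fun t : ℝ => (t : ℂ) * w) ⁻¹'
      {s : ℂ | mn_c (l1 + s) (l2 + s) (n + 1) = 0}) ∪
      (fun t : ℝ => (t : ℂ) * w) ⁻¹' {-l1, -l2} with hS
  have hSc : S.Countable := by
    refine Set.Countable.union (Set.countable_iUnion fun n => ?_) ?_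
    · exact ((mn_finite l1 l2 n).preimage hinj.injOn).countable
    · exact (((Set.finite_singleton (-l2)).insert (-l1)).preimage hinj.injOn).countable
  obtain ⟨t, htS, ht0, ht1⟩ := (hSc.dense_compl ℝ).exists_between
    (show (0 : ℝ) < ε / (‖w‖ + 1) by positivity)
  set s : ℂ := (t : ℂ) * w with hs
  have hbad : ∀ n : ℕ, mn_c (l1 + s) (l2 + s) (n + 1) ≠ 0 := by
    intro n h
    exact htS (Or.inl (Set.mem_iUnion.2 ⟨n, h⟩))
  have hs1 : l1 + s ≠ 0 := by
    intro h
    refine htS (Or.inr ?_)
    show (t : ℂ) * w ∈ ({-l1, -l2} : Set ℂ)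
    rw [← hs]
    exact Or.inl (by linear_combination h)
  have hs2 : l2 + s ≠ 0 := by
    intro h
    refine htS (Or.inr ?_)
    show (t : ℂ) * w ∈ ({-l1, -l2} : Set ℂ)
    rw [← hs]
    exact Or.inr (by
      show s = -l2
      linear_combination h)
  have ca1 : (A + C s * X).coeff 1 = A.coeff 1 + s := by
    rw [coeff_add, coeff_C_mul, coeff_X_one, mul_one]
  have ca0 : (A + C s * X).coeff 0 = A.coeff 0 := by
    rw [coeff_add, coeff_C_mul, coeff_X_zero, mul_zero, add_zero]
  have cb1 : (B + C s).coeff 1 = B.coeff 1 := by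
    rw [coeff_add, coeff_C_of_ne_zero one_ne_zero, add_zero]
  have cb0 : (B + C s).coeff 0 = B.coeff 0 + s := by
    rw [coeff_add, coeff_C_zero]
  have hA' : (A + C s * X).natDegree ≤ 1 := by
    refine natDegree_add_le_of_degree_le hA ?_
    refine (natDegree_C_mul_le _ _).trans natDegree_X_le
  have hB' : (B + C s).natDegree ≤ 1 := by
    refine natDegree_add_le_of_degree_le hB ?_
    rw [natDegree_C]
    exact zero_le_one
  have hdet : (A + C s * X).coeff 1 * (B + C s).coeff 0 - (A + C s * X).coeff 0 * (B + C s).coeff 1 =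
      (l1 + s) * (l2 + s) := by
    rw [ca1, ca0, cb1, cb0]
    linear_combination (-1 : ℂ) * hprod - s * hsum
  have hD0 : (A + C s * X).coeff 1 * (B + C s).coeff 0 -
      (A + C s * X).coeff 0 * (B + C s).coeff 1 ≠ 0 := by
    rw [hdet]
    exact mul_ne_zero hs1 hs2
  obtain ⟨hcop', hdeg'⟩ := mn_good hA' hB' hD0
  have hne : (A + C s * X).eval b ≠ b * (B + C s).eval b := by
    intro h
    apply hb
    simp only [eval_add, eval_mul, eval_C, eval_X] at h
    linear_combination h
  refine ⟨s, ?_, hcop', hdeg', ⟨l1 + s, l2 + s, hw t, ?_, hdet.symm⟩, hne, ?_⟩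
  · rw [hs, norm_mul, Complex.norm_real, Real.norm_of_nonneg ht0.le]
    have h1 : t * (‖w‖ + 1) < ε := by
      rwa [lt_div_iff₀ (by positivity)] at ht1
    nlinarith [norm_nonneg w]
  · rw [ca1, cb0]
    linear_combination hsum
  · -- homogeneous orbit
    set a1 := (A + C s * X).coeff 1 with ha1
    set a0 := (A + C s * X).coeff 0 with ha0
    set b1 := (B + C s).coeff 1 with hb1
    set b0 := (B + C s).coeff 0 with hb0
    let V : ℕ → ℂ × ℂ := fun n => Nat.rec (b, 1) (fun _ v => (a1 * v.1 + a0 * v.2, b1 * v.1 + b0 * v.2)) n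
    have hV0 : V 0 = (b, 1) := rfl
    have hVs : ∀ n, V (n + 1) = (a1 * (V n).1 + a0 * (V n).2, b1 * (V n).1 + b0 * (V n).2) :=
      fun n => rfl
    have hVn : ∀ n, (V n).1 ≠ 0 ∨ (V n).2 ≠ 0 := by
      intro n
      induction n with
      | zero => exact Or.inr (by rw [hV0]; exact one_ne_zero)
      | succ n ih =>
        by_contra hcon
        push Not at hcon
        rw [hVs] at hcon
        obtain ⟨h1, h2⟩ := hcon
        simp only at h1 h2
        have h3 : (a1 * b0 - a0 * b1) * (V n).1 = 0 := by linear_combination b0 * h1 - a0 * h2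
        have h4 : (a1 * b0 - a0 * b1) * (V n).2 = 0 := by linear_combination a1 * h2 - b1 * h1
        rcases ih with h | h
        · exact h ((mul_eq_zero.1 h3).resolve_left hD0)
        · exact h ((mul_eq_zero.1 h4).resolve_left hD0)
    have hpt : ∀ n, (rat (A + C s * X) (B + C s))^[n] (b : OnePoint ℂ) = pt (V n).1 (V n).2 := by
      intro n
      induction n with
      | zero =>
        rw [Function.iterate_zero, id, hV0]
        unfold pt
        rw [if_neg one_ne_zero, div_one]
      | succ n ih =>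
        rw [Function.iterate_succ_apply', ih, mn_rat_pt hdeg' (hVn n), hVs]
    have he : ∀ n, (V n).1 - b * (V n).2 = mn_c (l1 + s) (l2 + s) n * ((V 1).1 - b * (V 1).2) ∧
        (V (n + 1)).1 - b * (V (n + 1)).2 =
          mn_c (l1 + s) (l2 + s) (n + 1) * ((V 1).1 - b * (V 1).2) := by
      intro n
      induction n with
      | zero =>
        constructor
        · rw [hV0]
          simp [mn_c]
        · simp [mn_c]
      | succ n ih =>
        refine ⟨ih.2, ?_⟩
        have hsum' : l1 + s + (l2 + s) = a1 + b0 := by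
          rw [ca1, cb0]
          linear_combination hsum
        have h1 : (V (n + 1 + 1)).1 - b * (V (n + 1 + 1)).2 =
            (a1 + b0) * ((V (n + 1)).1 - b * (V (n + 1)).2) -
            (a1 * b0 - a0 * b1) * ((V n).1 - b * (V n).2) := by
          rw [hVs (n + 1), hVs n]
          ring
        rw [h1, ih.1, ih.2, mn_c_rec, hsum', hdet]
        ring
    intro n hper
    rw [hpt] at hper
    have h1 : pt (V (n + 1)).1 (V (n + 1)).2 = pt b 1 := by
      rw [hper]
      unfold pt
      rw [if_neg one_ne_zero, div_one]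
    have h2 := pt_eq h1
    have h3 := (he n).2
    have h4 : (V (n + 1)).1 - b * (V (n + 1)).2 = 0 := by linear_combination h2
    rw [h4] at h3
    have h5 := (mul_eq_zero.1 h3.symm).resolve_left (hbad n)
    apply hne
    rw [mn_eval hA', mn_eval hB', ← ha1, ← ha0, ← hb1, ← hb0]
    have h6 := hVs 0
    rw [zero_add, hV0] at h6
    rw [h6] at h5
    simp only at h5
    linear_combination h5

end Pool.Agent.H32.RC
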