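import Pool.Agent.H32.RC.Defs

set_option autoImplicit false

open Filter Topology Polynomial OnePoint Metric Set

namespace Pool.Agent.H32.RC

open Pool.Agent.H44.Fatou Pool.Agent.H32.BT Pool.Agent.H32.RB

private lemma left_eigen {a1 a0 b1 b0 l1 l2 : ℂ} (hsum : l1 + l2 = a1 + b0)
    (hprod : l1 * l2 = a1 * b0 - a0 * b1) :
    ∃ u v : ℂ, (u ≠ 0 ∨ v ≠ 0) ∧ u * a1 + v * b1 = l1 * u ∧ u * a0 + v * b0 = l1 * v := by
  have hchar : (l1 - a1) * (l1 - b0) = a0 * b1 := by
    linear_combination l1 * hsum - hprod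
  by_cases h : b1 ≠ 0 ∨ a1 ≠ l1
  · refine ⟨b1, l1 - a1, ?_, ?_, ?_⟩
    · rcases h with h | h
      · exact Or.inl h
      · exact Or.inr (sub_ne_zero.mpr (Ne.symm h))
    · ring
    · linear_combination -hchar
  · push Not at h
    obtain ⟨h1, h2⟩ := h
    subst h1 h2
    by_cases h3 : a1 - b0 ≠ 0 ∨ a0 ≠ 0
    · exact ⟨a1 - b0, a0, h3, by ring, by ring⟩
    · push Not at h3
      obtain ⟨h4, h5⟩ := h3
      refine ⟨1, 0, Or.inl one_ne_zero, by ring, ?_⟩
      rw [h5]; ring

private lemma det_ne {a1 a0 b1 b0 : ℂ}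
    (hcop : IsCoprime (C a1 * X + C a0 : Polynomial ℂ) (C b1 * X + C b0))
    (hdeg : max (C a1 * X + C a0 : Polynomial ℂ).natDegree
      (C b1 * X + C b0 : Polynomial ℂ).natDegree = 1) :
    a1 * b0 - a0 * b1 ≠ 0 := by
  intro hD
  have hnz : ∀ z : ℂ, ¬ (a1 * z + a0 = 0 ∧ b1 * z + b0 = 0) := by
    rintro z ⟨h1, h2⟩
    obtain ⟨s, t, hst⟩ := hcop
    have := congrArg (Polynomial.eval z) hst
    simp [h1, h2] at this
  by_cases hb : b1 = 0
  · subst hb
    by_cases ha : a1 = 0
    · subst ha
      simp at hdeg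
    · have hb0 : b0 = 0 := by
        have : a1 * b0 = 0 := by linear_combination hD
        exact (mul_eq_zero.mp this).resolve_left ha
      apply hnz (-a0 / a1)
      refine ⟨by field_simp; ring, by rw [hb0]; ring⟩
  · apply hnz (-b0 / b1)
    constructor
    · field_simp
      linear_combination -hD
    · field_simp; ring

theorem mob_prod {A B : Polynomial ℂ} (hcop : IsCoprime A B)
    (hdeg : max A.natDegree B.natDegree = 1) (hE : EqMod A B) (x : ℕ → ℂ) {p : ℕ}
    (hper : x p = x 0)
    (hstep : ∀ j, B.eval (x j) ≠ 0 ∧ A.eval (x j) / B.eval (x j) = x (j + 1)) :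
    ‖∏ j ∈ Finset.range p, (Wr A B).eval (x j) / (B.eval (x j)) ^ 2‖ = 1 := by
  have hA1 : A.natDegree ≤ 1 := by rw [← hdeg]; exact le_max_left _ _
  have hB1 : B.natDegree ≤ 1 := by rw [← hdeg]; exact le_max_right _ _
  obtain ⟨a1, a0, rfl⟩ := exists_eq_X_add_C_of_natDegree_le_one hA1
  obtain ⟨b1, b0, rfl⟩ := exists_eq_X_add_C_of_natDegree_le_one hB1
  obtain ⟨l1, l2, hl, hsum, hprod⟩ := hE
  have hsum' : l1 + l2 = a1 + b0 := by simpa using hsum
  have hprod' : l1 * l2 = a1 * b0 - a0 * b1 := by simpa using hprod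
  have hD := det_ne hcop hdeg
  have hW : ∀ z, (Wr (C a1 * X + C a0) (C b1 * X + C b0)).eval z = a1 * b0 - a0 * b1 := by
    intro z
    simp [Wr]
    ring
  have hB : ∀ z, (C b1 * X + C b0 : Polynomial ℂ).eval z = b1 * z + b0 := by
    intro z; simp
  have hA : ∀ z, (C a1 * X + C a0 : Polynomial ℂ).eval z = a1 * z + a0 := by
    intro z; simp
  have hs1 : ∀ j, b1 * x j + b0 ≠ 0 := fun j => by
    have := (hstep j).1
    rwa [hB] at this
  have hs2 : ∀ j, a1 * x j + a0 = x (j + 1) * (b1 * x j + b0) := fun j => by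
    have := (hstep j).2
    rw [hB, hA, div_eq_iff (hs1 j)] at this
    exact this
  have hDn : ‖a1 * b0 - a0 * b1‖ = ‖l1‖ ^ 2 := by
    rw [← hprod', norm_mul, ← hl]; ring
  have hl1 : ‖l1‖ ≠ 0 := by
    intro h
    rw [h] at hDn
    apply hD
    rw [← norm_eq_zero, hDn]
    norm_num
  have hbe : ‖∏ j ∈ Finset.range p, (b1 * x j + b0)‖ = ‖l1‖ ^ p := by
    obtain ⟨u, v, huv, e1, e2⟩ := left_eigen hsum' hprod'
    have hL : ∀ j, (u * x (j + 1) + v) * (b1 * x j + b0) = l1 * (u * x j + v) := by
      intro j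
      linear_combination (-u) * hs2 j + x j * e1 + e2
    have hind : ∀ n, (u * x n + v) * ∏ j ∈ Finset.range n, (b1 * x j + b0)
        = l1 ^ n * (u * x 0 + v) := by
      intro n
      induction n with
      | zero => simp
      | succ n ih =>
        rw [Finset.prod_range_succ, pow_succ]
        linear_combination (∏ j ∈ Finset.range n, (b1 * x j + b0)) * hL n + l1 * ih
    by_cases hL0 : u * x 0 + v = 0
    · have hu : u ≠ 0 := by
        rintro rfl
        rcases huv with h | h
        · exact h rfl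
        · apply h
          simpa using hL0
      have hall : ∀ j, u * x j + v = 0 := by
        intro j
        induction j with
        | zero => exact hL0
        | succ j ih =>
          have := hL j
          rw [ih, mul_zero] at this
          exact (mul_eq_zero.mp this).resolve_right (hs1 j)
      have hx : ∀ j, x j = x 0 := by
        intro j
        have h1 := hall j
        have : u * (x j - x 0) = 0 := by linear_combination h1 - hL0
        exact sub_eq_zero.mp ((mul_eq_zero.mp this).resolve_left hu)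
      have hmu : (b1 * x 0 + b0 - l1) * (b1 * x 0 + b0 - l2) = 0 := by
        have h2 := hs2 0
        rw [zero_add, hx 1] at h2
        linear_combination (-(b1 * x 0 + b0)) * hsum' + hprod' - b1 * h2
      have hn : ‖b1 * x 0 + b0‖ = ‖l1‖ := by
        rcases mul_eq_zero.mp hmu with h | h
        · rw [sub_eq_zero.mp h]
        · rw [sub_eq_zero.mp h, hl]
      rw [norm_prod]
      rw [Finset.prod_congr rfl (g := fun _ => ‖l1‖)]
      · simp
      · intro j _
        rw [hx j, hn]
    · have h := hind p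
      rw [hper, mul_comm] at h
      have h' := mul_right_cancel₀ hL0 h
      rw [h', norm_pow]
  have : ∏ j ∈ Finset.range p, (Wr (C a1 * X + C a0) (C b1 * X + C b0)).eval (x j)
      / ((C b1 * X + C b0 : Polynomial ℂ).eval (x j)) ^ 2
      = (a1 * b0 - a0 * b1) ^ p / (∏ j ∈ Finset.range p, (b1 * x j + b0)) ^ 2 := by
    rw [← Finset.prod_pow, ← Finset.card_range p, ← Finset.prod_const, Finset.card_range,
      ← Finset.prod_div_distrib]
    apply Finset.prod_congr rfl
    intro j _
    rw [hW, hB]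
  rw [this, norm_div, norm_pow, norm_pow, hbe, hDn, ← pow_mul, ← pow_mul, mul_comm 2 p]
  exact div_self (pow_ne_zero _ hl1)

end Pool.Agent.H32.RC
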