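import Pool.Agent.H32.RB.N1F
import Pool.Agent.H32.RC.Cyc
import Pool.Agent.H32.RC.Mob
import Pool.Agent.H32.RC.MobCases
import Pool.Agent.H32.RC.MobProd
import Pool.Agent.H32.RC.MobNonper
import Pool.Agent.H32.RC.FixRed

set_option autoImplicit false

open Filter Topology Polynomial OnePoint Metric Set

namespace Pool.Agent.H32.RC

open Pool.Agent.H44.Fatou Pool.Agent.H32.BT Pool.Agent.H32.RB

/-- a Möbius map with eigenvalues of equal modulus and one hole, not fixed, is not robust -/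
theorem mob_eig {A B : Polynomial ℂ} (hcop : IsCoprime A B)
    (hdeg : max A.natDegree B.natDegree = 1) (hE : EqMod A B) {b : ℂ}
    (hb : A.eval b ≠ b * B.eval b) : ¬ Robust 2 (A * (X - C b)) (B * (X - C b)) := by
  intro hrob
  obtain ⟨ρ, hρ, hnear⟩ := hrob.near
  obtain ⟨r, hr, hmul⟩ := mul_near2 (X - C b) hρ
  obtain ⟨s, hs, hcop1, hdeg1, hE1, hb1, hper⟩ := mob_nonper hcop hdeg hE hb hr
  set A1 := A + C s * X with hA1
  set B1 := B + C s with hB1
  have hn : Near r A1 B1 A B := by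
    intro i
    constructor
    · rw [hA1, coeff_add, add_sub_cancel_left, coeff_C_mul, coeff_X]
      split_ifs
      · rwa [mul_one]
      · rw [mul_zero, norm_zero]; exact hr
    · rw [hB1, coeff_add, add_sub_cancel_left, coeff_C]
      split_ifs
      · exact hs
      · rw [norm_zero]; exact hr
  have hrob1 : Robust 2 (A1 * (X - C b)) (B1 * (X - C b)) := hnear _ _ (hmul _ _ _ _ hn)
  obtain ⟨hA, hB⟩ := natDegree_le_of_max hdeg1
  obtain ⟨φ, hφs, hφ1, hφi, hcop', hdeg', hconj, hBdeg⟩ := chart_at hcop1 hdeg1 le_rfl b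
  have hB' := hBdeg (hper 0)
  have hA' := (natDegree_le_of_max hdeg').1
  have htr := (robust_transport hA hB le_rfl b 1 (X - C b) (natDegree_X_sub_C b).le).2 hrob1
  have h3 : reflect 1 ((X - C b).comp (X + C b)) = 1 := by
    simp
  rw [h3, mul_one, mul_one] at htr
  obtain ⟨P, v, δ, F, hP0, -⟩ := exists_gfam hcop' hB' hA' le_rfl (mob_not_crit hcop' hdeg' _) (by
    intro n h
    rw [← hφs, iter_conj φ hconj] at h
    exact hper n (φ.injective h)) htr
  obtain ⟨p, x, hxp, hst, hml⟩ := cyc_lim F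
  rw [hP0] at hml
  simp only [hP0] at hst
  rw [mob_prod hcop' hdeg' ((eqMod_cj hA hB b).2 hE1) x hxp hst] at hml
  exact lt_irrefl _ hml

/-- one hole over a Möbius map -/
theorem mob_one {A B : Polynomial ℂ} (hcop : IsCoprime A B)
    (hdeg : max A.natDegree B.natDegree = 1) {b : ℂ}
    (hrob : Robust 2 (A * (X - C b)) (B * (X - C b))) :
    rat A B b ≠ b ∧ ∃ a r : OnePoint ℂ, Lox (rat A B) a r := by
  have hfix : rat A B b ≠ b := by
    intro h
    have hBb : B.eval b ≠ 0 := by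
      intro h0
      rw [rat_coe] at h
      unfold pt at h
      rw [if_pos h0] at h
      exact infty_ne_coe _ h
    have hAb : A.eval b = b * B.eval b := by
      rw [rat_coe_of_ne hBb] at h
      rw [div_eq_iff hBb |>.1 (OnePoint.coe_injective h)]
    exact not_robust_fix1 hcop hdeg hBb hAb hrob
  refine ⟨hfix, ?_⟩
  rcases lox_or_eqMod hcop hdeg with h | h
  · exact h
  · exfalso
    refine mob_eig hcop hdeg h ?_ hrob
    intro h0
    have hBb : B.eval b ≠ 0 := by
      intro hB0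
      rw [hB0, mul_zero] at h0
      rcases coprime_eval hcop b with h1 | h1
      · exact h1 h0
      · exact h1 hB0
    apply hfix
    rw [rat_coe_of_ne hBb, h0, mul_div_cancel_right₀ _ hBb]

/-! consequences of `Lox` -/

theorem Lox.att {f : OnePoint ℂ → OnePoint ℂ} {a r x : OnePoint ℂ} (h : Lox f a r) (hx : x ≠ r) :
    Att f x := by
  refine ⟨a, 1, ⟨one_pos, h.2.1, {r}ᶜ, isOpen_compl_singleton.mem_nhds h.1, ?_⟩, ?_⟩
  · intro w hw
    simpa using h.2.2.2 w hw
  · simpa using h.2.2.2 x hx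

theorem Lox.not_att {f : OnePoint ℂ → OnePoint ℂ} {a r : OnePoint ℂ} (h : Lox f a r) :
    ¬ Att f r := by
  rintro ⟨z, n, ⟨hn, -, U, hU, hUt⟩, ht⟩
  have hr : ∀ m, f^[m] r = r := fun m => Function.iterate_fixed h.2.2.1 m
  have hz : z = r := by
    simp only [hr] at ht
    exact tendsto_nhds_unique ht tendsto_const_nhds
  subst hz
  obtain ⟨w, hwU, hwz⟩ : ∃ w ∈ U, w ≠ z := by
    have h1 : U ∈ 𝓝[≠] z := mem_nhdsWithin_of_mem_nhds hU
    have h2 : (𝓝[≠] z).NeBot := inferInstance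
    obtain ⟨w, hw1, hw2⟩ := (h2.nonempty_of_mem (inter_mem h1 self_mem_nhdsWithin))
    exact ⟨w, hw1, hw2⟩
  have h1 := hUt w hwU
  have h2 : Tendsto (fun k : ℕ => f^[n * k] w) atTop (𝓝 a) :=
    (h.2.2.2 w hwz).comp (tendsto_id.const_mul_atTop' hn)
  exact h.1 (tendsto_nhds_unique h2 h1)

theorem Lox.not_per {f : OnePoint ℂ → OnePoint ℂ} {a r x : OnePoint ℂ} (h : Lox f a r)
    (hx : f x ≠ x) (n : ℕ) : f^[n + 1] x ≠ x := by
  intro hp
  have hxr : x ≠ r := fun h0 => hx (by rw [h0]; exact h.2.2.1)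
  have h1 : Tendsto (fun k : ℕ => f^[(n + 1) * k] x) atTop (𝓝 a) :=
    (h.2.2.2 x hxr).comp (tendsto_id.const_mul_atTop' (Nat.succ_pos n))
  have h2 : ∀ k : ℕ, f^[(n + 1) * k] x = x := by
    intro k
    rw [Function.iterate_mul]
    exact Function.iterate_fixed hp _
  simp only [h2] at h1
  have h3 : x = a := tendsto_nhds_unique tendsto_const_nhds h1
  exact hx (by rw [h3]; exact h.2.1)

theorem Lox.fixed {f : OnePoint ℂ → OnePoint ℂ} {a r x : OnePoint ℂ} (h : Lox f a r)
    (hx : f x = x) : x = a ∨ x = r := by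
  by_cases hxr : x = r
  · exact Or.inr hxr
  · left
    have h1 := h.2.2.2 x hxr
    have h2 : ∀ k : ℕ, f^[k] x = x := fun k => Function.iterate_fixed hx _
    simp only [h2] at h1
    exact tendsto_nhds_unique tendsto_const_nhds h1

end Pool.Agent.H32.RC
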