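import Pool.Agent.H32.RB.Wrap
import Pool.Agent.H32.RC.Eig

set_option autoImplicit false

open Filter Topology Polynomial OnePoint Metric Set

namespace Pool.Agent.H32.RC

open Pool.Agent.H44.Fatou Pool.Agent.H32.BT Pool.Agent.H32.RB

/-- two holes over a Möbius map: no orbit relation -/
theorem mob_two {A B : Polynomial ℂ} (hcop : IsCoprime A B)
    (he : max A.natDegree B.natDegree = 1) {b b' : ℂ}
    (hrob : Robust 3 (A * ((X - C b) * (X - C b'))) (B * ((X - C b) * (X - C b')))) (n : ℕ) :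
    (rat A B)^[n] (b : OnePoint ℂ) ≠ b' := by
  classical
  intro hn
  obtain ⟨hA, hB⟩ := natDegree_le_of_max he
  set f := rat A B with hf
  have hrob1 : Robust 2 (A * (X - C b')) (B * (X - C b')) := by
    apply robust_reduce (i := 1) (by omega) (X_sub_C_ne_zero b) (natDegree_X_sub_C b).le
    have e1 : A * (X - C b') * (X - C b) = A * ((X - C b) * (X - C b')) := by ring
    have e2 : B * (X - C b') * (X - C b) = B * ((X - C b) * (X - C b')) := by ring
    rw [e1, e2]
    exact hrob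
  obtain ⟨hfix, a, r, hL⟩ := mob_one hcop he hrob1
  have hper : ∀ n : ℕ, f^[n + 1] (b' : OnePoint ℂ) ≠ b' := hL.not_per hfix
  have hex : ∃ n, f^[n] (b : OnePoint ℂ) = b' := ⟨n, hn⟩
  set p0 := Nat.find hex with hp0
  have hp : f^[p0] (b : OnePoint ℂ) = b' := Nat.find_spec hex
  have hmin : ∀ m < p0, f^[m] (b : OnePoint ℂ) ≠ b' := fun m hm => Nat.find_min hex hm
  obtain ⟨s, hsS, hsfix⟩ : ∃ s : ℂ, (s : OnePoint ℂ) ∉
      Set.range (fun j : ℕ => f^[j] (b : OnePoint ℂ)) ∧ f s ≠ s := by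
    have hbad : ({y : ℂ | (y : OnePoint ℂ) ∈ Set.range (fun j : ℕ => f^[j] (b : OnePoint ℂ))} ∪
        {y : ℂ | (y : OnePoint ℂ) ∈ ({a, r} : Set (OnePoint ℂ))}).Countable :=
      (countable_coe (Set.countable_range _)).union (countable_coe (Set.toFinite _).countable)
    obtain ⟨s, hs⟩ := (hbad.dense_compl ℂ).nonempty
    simp only [mem_compl_iff, mem_union, not_or] at hs
    refine ⟨s, hs.1, fun h => hs.2 ?_⟩
    rcases hL.fixed h with h1 | h1
    · exact Or.inl h1
    · exact Or.inr h1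
  obtain ⟨φ, hφs, hφ1, hφi, hcop', hdeg', hconj, hBdeg⟩ := chart_at hcop he (by omega) s
  have hbs : b ≠ s := by
    rintro rfl
    exact hsS ⟨0, rfl⟩
  have hb's : b' ≠ s := by
    rintro rfl
    exact hsS ⟨p0, hp⟩
  have hfin : ∀ j : ℕ, ∃ y : ℂ, φ (f^[j] (b : OnePoint ℂ)) = (y : OnePoint ℂ) := by
    intro j
    have : φ (f^[j] (b : OnePoint ℂ)) ≠ ∞ := by
      rw [← hφs]
      intro h
      exact hsS ⟨j, φ.injective h⟩
    obtain ⟨y, hy⟩ := OnePoint.ne_infty_iff_exists.1 this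
    exact ⟨y, hy.symm⟩
  choose x hx using hfin
  have hx0 : x 0 = (b - s)⁻¹ := by
    have := hx 0
    rw [Function.iterate_zero, id, hφ1 b hbs] at this
    exact (OnePoint.coe_injective this).symm
  have hxit : ∀ j, (rat (cj1 s 1 A B) (cj2 s 1 A B))^[j] (x 0 : OnePoint ℂ) =
      (x j : OnePoint ℂ) := by
    intro j
    rw [hx0, ← hφ1 b hbs, iter_conj φ hconj, hx j]
  have hsteps := orbit_steps x hxit
  have hxn : x p0 = (b' - s)⁻¹ := by
    have h1 := hx p0
    rw [hp, hφ1 b' hb's] at h1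
    exact (OnePoint.coe_injective h1).symm
  have htr := (transport_two hA hB (by omega) hbs hb's).2 hrob
  rw [← hx0, ← hxn] at htr
  obtain ⟨ρ, hρ, hnear⟩ := htr.near
  obtain ⟨ε, hε, hlin⟩ := lin_near (cj1 s 1 A B * (X - C (x p0))) (cj2 s 1 A B * (X - C (x p0)))
    (x 0) hρ
  obtain ⟨P, Q, b1, hPQ, hdeg1, hPn, hb1, hKb1⟩ := open_hole hcop' (hBdeg hsfix)
    (natDegree_le_of_max hdeg').1 (by omega) x p0 (by
      intro h
      have h1 := rat_eq_self hcop' h
      rw [hxn, ← hφ1 b' hb's, hconj] at h1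
      exact hper 0 (φ.injective h1)) (by
      intro j hj heq
      have h1 := hx j
      rw [heq, hxn, ← hφ1 b' hb's] at h1
      exact hmin j hj (φ.injective h1)) (fun j _ => (hsteps j).1) (fun j _ => (hsteps j).2) hε
  apply hKb1
  apply att_of_robust hPQ hdeg1 (by omega)
  have h5 := hlin P Q b1 hPn hb1
  have e1 : cj1 s 1 A B * (X - C (x p0)) * (X - C (x 0)) =
      cj1 s 1 A B * ((X - C (x 0)) * (X - C (x p0))) := by ring
  have e2 : cj2 s 1 A B * (X - C (x p0)) * (X - C (x 0)) =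
      cj2 s 1 A B * ((X - C (x 0)) * (X - C (x p0))) := by ring
  rw [e1, e2] at h5
  exact hnear _ _ h5

end Pool.Agent.H32.RC
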