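import Pool.Agent.H32.RB.Final
import Pool.Agent.H32.RC.Two

set_option autoImplicit false

open Filter Topology Polynomial OnePoint Metric Set

namespace Pool.Agent.H32.RC

open Pool.Agent.H44.Fatou Pool.Agent.H32.BT Pool.Agent.H32.RB

theorem lox_conj (φ : OnePoint ℂ ≃ₜ OnePoint ℂ) {f g : OnePoint ℂ → OnePoint ℂ}
    (hfg : ∀ x, g (φ x) = φ (f x)) (h : ∃ a r, Lox g a r) : ∃ a r, Lox f a r := by
  obtain ⟨a', r', h⟩ := h
  obtain ⟨a, rfl⟩ := φ.surjective a'
  obtain ⟨r, rfl⟩ := φ.surjective r'
  obtain ⟨h1, h2, h3, h4⟩ := h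
  refine ⟨a, r, fun h => h1 (by rw [h]), φ.injective (by rw [← hfg, h2]),
    φ.injective (by rw [← hfg, h3]), fun x hx => ?_⟩
  have h5 := h4 (φ x) (fun h => hx (φ.injective h))
  have h6 : ∀ n : ℕ, g^[n] (φ x) = φ (f^[n] x) := fun n => iter_conj φ hfg n x
  simp only [h6] at h5
  have h7 := (φ.symm.continuous.tendsto (φ a)).comp h5
  simpa [Function.comp_def] using h7

/-- necessity over a Möbius map -/
theorem good_of_robust1 {A B H : Polynomial ℂ} {k : ℕ} (hcop : IsCoprime A B)
    (he : max A.natDegree B.natDegree = 1) (hk : 1 ≤ k) (hH0 : H ≠ 0) (hH : H.natDegree ≤ k)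
    (hrob : Robust (1 + k) (A * H) (B * H)) :
    Good k A B H ∧ ∃ a r, Lox (rat A B) a r := by
  -- the case where infinity is not a hole
  have key : ∀ A B H : Polynomial ℂ, IsCoprime A B → max A.natDegree B.natDegree = 1 → H ≠ 0 →
      H.natDegree = k → Robust (1 + k) (A * H) (B * H) →
      Good k A B H ∧ ∃ a r, Lox (rat A B) a r := by
    intro A B H hcop he hH0 hHk hrob
    -- one hole
    have one : ∀ b : ℂ, H.eval b = 0 → Robust 2 (A * (X - C b)) (B * (X - C b)) := by
      intro b hb
      obtain ⟨H1, rfl⟩ := dvd_iff_isRoot.2 hb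
      have hH1 : H1 ≠ 0 := right_ne_zero_of_mul hH0
      have hd : H1.natDegree + 1 = k := by
        rw [natDegree_mul (X_sub_C_ne_zero b) hH1, natDegree_X_sub_C] at hHk
        omega
      apply robust_reduce (i := H1.natDegree) (by omega) hH1 le_rfl
      rw [mul_assoc, mul_assoc, show 2 + H1.natDegree = 1 + k by omega]
      exact hrob
    -- two holes
    have two : ∀ (b b' : ℂ) (H2 : Polynomial ℂ), H = (X - C b) * ((X - C b') * H2) →
        ∀ n : ℕ, (rat A B)^[n] (b : OnePoint ℂ) ≠ b' := by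
      intro b b' H2 hH2
      have hH20 : H2 ≠ 0 := by
        rintro rfl
        rw [mul_zero, mul_zero] at hH2
        exact hH0 hH2
      have hd : H2.natDegree + 2 = k := by
        rw [hH2, natDegree_mul (X_sub_C_ne_zero b) (mul_ne_zero (X_sub_C_ne_zero b') hH20),
          natDegree_mul (X_sub_C_ne_zero b') hH20, natDegree_X_sub_C, natDegree_X_sub_C] at hHk
        omega
      apply mob_two hcop he
      apply robust_reduce (i := H2.natDegree) (by omega) hH20 le_rfl
      have e1 : A * ((X - C b) * (X - C b')) * H2 = A * H := by rw [hH2]; ring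
      have e2 : B * ((X - C b) * (X - C b')) * H2 = B * H := by rw [hH2]; ring
      rw [e1, e2, show 3 + H2.natDegree = 1 + k by omega]
      exact hrob
    have hfinite : ∀ x, Hole k H x → ∃ h : ℂ, x = (h : OnePoint ℂ) ∧ H.eval h = 0 := by
      rintro x (hx | ⟨-, hx⟩)
      · exact hx
      · omega
    obtain ⟨b0, hb0⟩ : ∃ b0 : ℂ, H.eval b0 = 0 := by
      have hdeg : H.degree ≠ 0 := by
        rw [degree_eq_natDegree hH0]
        intro h
        have : H.natDegree = 0 := by exact_mod_cast h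
        omega
      exact IsAlgClosed.exists_root H hdeg
    obtain ⟨-, a, r, hL⟩ := mob_one hcop he (one b0 hb0)
    have hfix : ∀ b : ℂ, H.eval b = 0 → rat A B b ≠ b := fun b hb => (mob_one hcop he (one b hb)).1
    refine ⟨⟨fun c hc => absurd hc (mob_not_crit hcop he c), ⟨?_, by omega⟩, ?_, ?_⟩, a, r, hL⟩
    · intro h hh hder
      obtain ⟨H1, hH1⟩ := dvd_iff_isRoot.2 hh
      have hH1h : H1.eval h = 0 := by
        rw [hH1, derivative_mul] at hder
        simpa using hder
      obtain ⟨H2, hH2⟩ := dvd_iff_isRoot.2 hH1h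
      exact two h h H2 (by rw [hH1, hH2]) 0 rfl
    · intro x hx
      obtain ⟨h, rfl, hh⟩ := hfinite x hx
      apply hL.att
      intro h1
      exact hfix h hh (by rw [h1]; exact hL.2.2.1)
    · intro x y n hx hy
      obtain ⟨h', rfl, hh'⟩ := hfinite y hy
      rcases hx with hx | hx
      · exact absurd hx (mob_not_crit hcop he x)
      · obtain ⟨h, rfl, hh⟩ := hfinite x hx
        by_cases hne : h = h'
        · subst hne
          exact hL.not_per (hfix h hh) n
        · obtain ⟨H1, hH1⟩ := dvd_iff_isRoot.2 hh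
          have hH1h : H1.eval h' = 0 := by
            rw [hH1, eval_mul, eval_sub, eval_X, eval_C, mul_eq_zero] at hh'
            rcases hh' with h0 | h0
            · exact absurd (sub_eq_zero.1 h0).symm hne
            · exact h0
          obtain ⟨H2, hH2⟩ := dvd_iff_isRoot.2 hH1h
          exact two h h' H2 (by rw [hH1, hH2]) (n + 1)
  obtain ⟨s, hs⟩ : ∃ s : ℂ, H.eval s ≠ 0 := by
    by_contra hcon
    push Not at hcon
    exact hH0 (Polynomial.funext (by simpa using hcon))
  obtain ⟨hA, hB⟩ := natDegree_le_of_max he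
  obtain ⟨φ, hφs, hφ1, hφi, hcop', hdeg', hconj, -⟩ := chart_at hcop he le_rfl s
  rw [← robust_transport hA hB le_rfl s k H hH] at hrob
  rw [← good_cj hcop he le_rfl hH0 hH s]
  have hGk : (reflect k (H.comp (X + C s))).coeff k ≠ 0 := by
    rw [coeff_reflect, revAt_le le_rfl, Nat.sub_self, coeff_zero_eq_eval_zero, eval_comp,
      eval_add, eval_X, eval_C, zero_add]
    exact hs
  have hGle : (reflect k (H.comp (X + C s))).natDegree ≤ k := by
    apply natDegree_reflect_le'
    rw [natDegree_comp, natDegree_X_add_C, mul_one]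
    exact hH
  obtain ⟨h1, h2⟩ := key _ _ _ hcop' hdeg' (reflect_ne_zero hH0 k s)
    (le_antisymm hGle (le_natDegree_of_ne_zero hGk)) hrob
  exact ⟨h1, lox_conj φ hconj h2⟩

/-- exact characterisation over Möbius maps -/
theorem robust_iff_good1 {A B H : Polynomial ℂ} {k : ℕ} (hcop : IsCoprime A B)
    (he : max A.natDegree B.natDegree = 1) (hk : 1 ≤ k) (hH0 : H ≠ 0) (hH : H.natDegree ≤ k) :
    Robust (1 + k) (A * H) (B * H) ↔ Good k A B H ∧ ∃ a r, Lox (rat A B) a r := by
  refine ⟨good_of_robust1 hcop he hk hH0 hH, ?_⟩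
  rintro ⟨hg, a, r, hL⟩
  exact robust_of_good' hcop he le_rfl ⟨r, hL.not_att⟩ hH0 hH hg

end Pool.Agent.H32.RC
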