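import Pool.Agent.H32.RB.Main
import Pool.Agent.H32.RC.Final0
import Pool.Agent.H32.RC.Final1

set_option autoImplicit false

open Filter Topology Polynomial OnePoint Metric Set

namespace Pool.Agent.H32.RC

open Pool.Agent.H44.Fatou Pool.Agent.H32.BT Pool.Agent.H32.RB

/-- `f` is the continuous extension of `P/Q` to the sphere -/
def IsExt2 (f : OnePoint ℂ → OnePoint ℂ) (P Q : Polynomial ℂ) : Prop :=
  Continuous f ∧ ∀ z : ℂ, (Q.eval z ≠ 0 → f (OnePoint.some z) = OnePoint.some (P.eval z / Q.eval z)) ∧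
    (Q.eval z = 0 → f (OnePoint.some z) = OnePoint.infty)

theorem isExt2_rat {P Q : Polynomial ℂ} (h : IsCoprime P Q) : IsExt2 (rat P Q) P Q :=
  ⟨rat_continuous h, fun z => ⟨fun hz => rat_coe_of_ne hz, fun hz => by
    rw [rat_coe]; unfold pt; rw [if_pos hz]⟩⟩

theorem ext2_eq {P Q : Polynomial ℂ} (h : IsCoprime P Q)
    {f : OnePoint ℂ → OnePoint ℂ} (hf : IsExt2 f P Q) : f = rat P Q := by
  obtain ⟨hfc, hfe⟩ := hf
  refine Continuous.ext_on (denseRange_coe (X := ℂ)) hfc (rat_continuous h) ?_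
  rintro _ ⟨z, rfl⟩
  by_cases hz : Q.eval z = 0
  · have h1 := (hfe z).2 hz
    have h2 := ((isExt2_rat h).2 z).2 hz
    exact h1.trans h2.symm
  · have h1 := (hfe z).1 hz
    have h2 := ((isExt2_rat h).2 z).1 hz
    exact h1.trans h2.symm

/-- over a constant, `Good` says that the holes are simple and the value is not a hole -/
theorem good_const_iff {a b : ℂ} (H : Polynomial ℂ) (k : ℕ) :
    Good k (C a) (C b) H ↔
      ((∀ h : ℂ, H.eval h = 0 → (derivative H).eval h ≠ 0) ∧ k ≤ H.natDegree + 1) ∧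
        ¬ Hole k H (pt a b) := by
  have hr : ∀ x : OnePoint ℂ, rat (C a) (C b) x = pt a b := by
    intro x
    induction x using OnePoint.rec with
    | infty =>
      have hdg : dg (C a) (C b) = 0 := by unfold dg; simp
      rw [rat_infty, hdg, coeff_C_zero, coeff_C_zero]
    | coe z => rw [rat_coe, eval_C, eval_C]
  have hit : ∀ (n : ℕ) (x : OnePoint ℂ), (rat (C a) (C b))^[n + 1] x = pt a b := by
    intro n x
    rw [Function.iterate_succ_apply', hr]
  have hatt : ∀ x : OnePoint ℂ, Att (rat (C a) (C b)) x := by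
    have ht : ∀ w : OnePoint ℂ,
        Tendsto (fun k : ℕ => (rat (C a) (C b))^[1 * k] w) atTop (𝓝 (pt a b)) := by
      intro w
      apply tendsto_const_nhds.congr'
      filter_upwards [eventually_ge_atTop 1] with k hk
      obtain ⟨m, rfl⟩ : ∃ m, k = m + 1 := ⟨k - 1, by omega⟩
      rw [one_mul, hit]
    intro x
    exact ⟨pt a b, 1, ⟨one_pos, hr _, Set.univ, univ_mem, fun w _ => ht w⟩, ht x⟩
  have hcrit : ∀ x : OnePoint ℂ, IsCrit (rat (C a) (C b)) x := by
    rintro x ⟨U, hU, hinj⟩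
    obtain ⟨w, hwU, hwx⟩ : ∃ w ∈ U, w ≠ x := by
      have h1 : U ∈ 𝓝[≠] x := mem_nhdsWithin_of_mem_nhds hU
      have h2 : (𝓝[≠] x).NeBot := inferInstance
      obtain ⟨w, hw1, hw2⟩ := (h2.nonempty_of_mem (inter_mem h1 self_mem_nhdsWithin))
      exact ⟨w, hw1, hw2⟩
    exact hwx (hinj hwU (mem_of_mem_nhds hU) (by rw [hr, hr]))
  constructor
  · rintro ⟨-, h2, -, h4⟩
    refine ⟨h2, fun hh => ?_⟩
    exact h4 ∞ (pt a b) 0 (Or.inl (hcrit _)) hh (hit 0 _)
  · rintro ⟨h2, h3⟩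
    refine ⟨fun c _ => hatt c, h2, fun x _ => hatt x, fun x y n _ hy hxy => ?_⟩
    rw [hit] at hxy
    exact h3 (hxy ▸ hy)

/-- the exact characterisation on all strata -/
theorem robust_iff_all {d e : ℕ} (hd : 2 ≤ d) (hed : e ≤ d) {A B H : Polynomial ℂ}
    (hcop : IsCoprime A B) (hdeg : max A.natDegree B.natDegree = e) (hH0 : H ≠ 0)
    (hH : H.natDegree ≤ d - e) :
    Robust d (A * H) (B * H) ↔
      Good (d - e) A B H ∧ (e = 1 → ∃ a r, Lox (rat A B) a r) := by
  rcases Nat.lt_or_ge 1 e with he | he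
  · have h1 := robust_iff_good hcop hdeg he hH0 hH
    rw [Nat.add_sub_cancel' hed] at h1
    rw [h1]
    constructor
    · intro h
      exact ⟨h, fun h2 => by omega⟩
    · exact fun h => h.1
  · rcases Nat.lt_or_ge 0 e with he0 | he0
    · have he1 : e = 1 := by omega
      subst he1
      have h1 := robust_iff_good1 hcop hdeg (by omega) hH0 hH
      rw [Nat.add_sub_cancel' hed] at h1
      rw [h1]
      constructor
      · rintro ⟨h2, h3⟩
        exact ⟨h2, fun _ => h3⟩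
      · rintro ⟨h2, h3⟩
        exact ⟨h2, h3 rfl⟩
    · have he00 : e = 0 := by omega
      subst he00
      obtain ⟨hA, hB⟩ := natDegree_le_of_max hdeg
      obtain ⟨a, rfl⟩ : ∃ a, A = C a := ⟨_, eq_C_of_natDegree_le_zero hA⟩
      obtain ⟨b, rfl⟩ : ∃ b, B = C b := ⟨_, eq_C_of_natDegree_le_zero hB⟩
      have hab : a ≠ 0 ∨ b ≠ 0 := by
        have := coprime_eval hcop 0
        rwa [eval_C, eval_C] at this
      rw [Nat.sub_zero] at hH ⊢
      rw [robust_iff_good0 hab hd hH0 hH, good_const_iff]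
      constructor
      · intro h
        exact ⟨h, fun h2 => absurd h2 (by norm_num)⟩
      · exact fun h => h.1

/-- the exact characterisation on all strata, frozen words -/
theorem robustH_iff_all {d e : ℕ} (hd : 2 ≤ d) (hed : e ≤ d) {A B H : Polynomial ℂ}
    (hcop : IsCoprime A B) (hdeg : max A.natDegree B.natDegree = e) (hH0 : H ≠ 0)
    (hH : H.natDegree ≤ d - e) :
    RobustH d (A * H) (B * H) ↔
      ∃ f : OnePoint ℂ → OnePoint ℂ, IsExt2 f A B ∧ (∀ c, IsCrit f c → AttF f c) ∧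
      ((∀ h : ℂ, H.eval h = 0 → (derivative H).eval h ≠ 0) ∧ d - e ≤ H.natDegree + 1) ∧
      (∀ x, Hole (d - e) H x → AttF f x) ∧
      (∀ (x y : OnePoint ℂ) (n : ℕ), (IsCrit f x ∨ Hole (d - e) H x) → Hole (d - e) H y →
        f^[n + 1] x ≠ y) ∧ (e = 1 → ∃ a r, Lox f a r) := by
  rw [robustH_iff (by omega), robust_iff_all hd hed hcop hdeg hH0 hH]
  constructor
  · rintro ⟨⟨h1, h2, h3, h4⟩, h5⟩
    exact ⟨rat A B, isExt2_rat hcop, fun c hc => (attF_iff _ _).2 (h1 c hc), h2,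
      fun x hx => (attF_iff _ _).2 (h3 x hx), h4, h5⟩
  · rintro ⟨f, hf, h1, h2, h3, h4, h5⟩
    have hfr := ext2_eq hcop hf
    subst hfr
    exact ⟨⟨fun c hc => (attF_iff _ _).1 (h1 c hc), h2,
      fun x hx => (attF_iff _ _).1 (h3 x hx), h4⟩, h5⟩

end Pool.Agent.H32.RC
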