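import Pool.Agent.H32.RC.Defs
import Pool.Agent.H32.BT.Fam

set_option autoImplicit false

open Filter Topology Polynomial OnePoint Metric Set

namespace Pool.Agent.H32.RC

open Pool.Agent.H44.Fatou Pool.Agent.H32.BT Pool.Agent.H32.RB

/-
PROOF. Suppose Robust with radius rho. For tau not 0 small and a constant m (below) put
  Q = X - C b,  P = (C b + C L * (X - C b) + C (m * tau)) * (X - C b) + C (L * tau^2),
so the map is F(z) = b + L (z - b) + m tau + L tau^2 / (z - b).
* P = (..) * Q + C (L tau^2), L tau^2 not 0: coprime. Coefficient 2 of P is L: max degree = 2.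
* P - P0 = C (m tau) * (X - C b) + C (L tau^2): coefficients < rho for tau small.
* b + tau is critical: (Wr P Q).eval (b + tau) = 0 (ring), crit_of_wr; HypMap gives Att at b + tau;
  att_map moves Att along the orbit. F (b + tau) = b + (2 L + m) tau.
* Case |L| < 1: m = -2 L. F (b + tau) = b, rat P Q b = infinity (Q b = 0, pt), so Att at infinity.
  But not_att_inf (BT/Fam.lean) applies.
* Case |L| > 1: x = (L + 1) / (L - 1), m = 1/x - 2 L. Then F (b + tau) = b + tau / x;
  F (b + tau / x) = b + tau x fixed, with multiplier 4 L^2 / (1 + L)^2.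
  repelling_not_att (RB/Rep.lean) contradicts Att.
-/

/-- numerator of the family -/
noncomputable def faP (b L m t : ℂ) : Polynomial ℂ :=
  (C b + C L * (X - C b) + C (m * t)) * (X - C b) + C (L * t ^ 2)

theorem fa_quad (b L m t : ℂ) : faP b L m t =
    C L * X ^ 2 + C (b + m * t - 2 * L * b) * X +
      C (L * b ^ 2 - b ^ 2 - m * t * b + L * t ^ 2) := by
  unfold faP
  simp only [C_add, C_sub, C_mul, C_pow, C_ofNat]
  ring

theorem fa_deg (b L m t : ℂ) (h0 : L ≠ 0) :
    max (faP b L m t).natDegree (X - C b : Polynomial ℂ).natDegree = 2 := by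
  rw [fa_quad, natDegree_quadratic h0, natDegree_X_sub_C]
  rfl

theorem fa_cop (b L m t : ℂ) (h0 : L ≠ 0) (ht : t ≠ 0) :
    IsCoprime (faP b L m t) (X - C b) := by
  have hu : L * t ^ 2 ≠ 0 := mul_ne_zero h0 (pow_ne_zero 2 ht)
  refine ⟨C (L * t ^ 2)⁻¹, - C (L * t ^ 2)⁻¹ * (C b + C L * (X - C b) + C (m * t)), ?_⟩
  have h1 : (C (L * t ^ 2)⁻¹ : Polynomial ℂ) * C (L * t ^ 2) = 1 := by
    rw [← C_mul, inv_mul_cancel₀ hu, C_1]
  unfold faP
  linear_combination h1

theorem fa_eval (b L m t z : ℂ) : (faP b L m t).eval z =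
    (b + L * (z - b) + m * t) * (z - b) + L * t ^ 2 := by
  simp [faP]

theorem fa_wr (b L m t z : ℂ) : (Wr (faP b L m t) (X - C b)).eval z =
    L * (z - b) ^ 2 - L * t ^ 2 := by
  rw [fa_quad]
  simp only [Wr, derivative_add, derivative_C_mul, derivative_X_pow, derivative_C, derivative_X,
    derivative_sub, eval_sub, eval_mul, eval_add, eval_C, eval_X, eval_pow, eval_one, eval_zero,
    map_natCast, eval_natCast]
  norm_num
  ring

theorem fa_near (b L m : ℂ) (ρ : ℝ) (hρ : 0 < ρ) : ∃ t : ℂ, t ≠ 0 ∧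
    Near ρ (faP b L m t) (X - C b) ((C b + C L * (X - C b)) * (X - C b)) (X - C b) := by
  set K : ℝ := ‖m‖ * (1 + ‖b‖) + ‖L‖ + 1 with hK
  have hKpos : 0 < K := by positivity
  set s : ℝ := min 1 (ρ / (2 * K)) with hs
  have hspos : 0 < s := by
    apply lt_min one_pos
    positivity
  have hs1 : s ≤ 1 := min_le_left _ _
  have hs2 : s * K < ρ := by
    have h1 : s ≤ ρ / (2 * K) := min_le_right _ _
    have h2 : s * K ≤ ρ / (2 * K) * K := mul_le_mul_of_nonneg_right h1 hKpos.le
    have h3 : ρ / (2 * K) * K = ρ / 2 := by field_simp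
    linarith
  refine ⟨(s : ℂ), ?_, ?_⟩
  · exact_mod_cast hspos.ne'
  · have hns : ‖(s : ℂ)‖ = s := by
      rw [Complex.norm_real, Real.norm_of_nonneg hspos.le]
    have hdiff : faP b L m s - (C b + C L * (X - C b)) * (X - C b) =
        C (m * s) * X + C (L * s ^ 2 - m * s * b) := by
      unfold faP
      simp only [C_sub, C_mul, C_pow]
      ring
    have hA : ‖m * (s : ℂ)‖ < ρ := by
      rw [norm_mul, hns]
      refine lt_of_le_of_lt ?_ hs2
      rw [mul_comm]
      apply mul_le_mul_of_nonneg_left _ hspos.le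
      rw [hK]
      have := mul_nonneg (norm_nonneg m) (norm_nonneg b)
      nlinarith [norm_nonneg m, norm_nonneg L]
    have hB : ‖L * (s : ℂ) ^ 2 - m * s * b‖ < ρ := by
      refine lt_of_le_of_lt (norm_sub_le _ _) ?_
      rw [norm_mul, norm_mul, norm_mul, norm_pow, hns]
      refine lt_of_le_of_lt ?_ hs2
      have h1 : ‖L‖ * s ^ 2 ≤ ‖L‖ * s := by
        apply mul_le_mul_of_nonneg_left _ (norm_nonneg L)
        nlinarith
      have h2 : 0 ≤ ‖m‖ * s := mul_nonneg (norm_nonneg m) hspos.le
      rw [hK]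
      nlinarith
    intro i
    constructor
    · rw [← coeff_sub, hdiff, coeff_add, coeff_C_mul, coeff_X, coeff_C]
      rcases Nat.lt_or_ge i 2 with hi | hi
      · interval_cases i
        · simpa using hB
        · simpa using hA
      · have h1 : ¬ (1 = i) := by omega
        have h2 : ¬ (i = 0) := by omega
        simp [h1, h2, hρ]
    · simp [hρ]

theorem fix_aff (b L : ℂ) (h0 : L ≠ 0) (h1 : ‖L‖ ≠ 1) :
    ¬ Robust 2 ((C b + C L * (X - C b)) * (X - C b)) (X - C b) := by
  rintro ⟨ρ, hρ, hrob⟩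
  -- general facts on the family
  have key : ∀ m : ℂ, ∃ t : ℂ, t ≠ 0 ∧ IsCoprime (faP b L m t) (X - C b) ∧
      Att (rat (faP b L m t) (X - C b)) ((b + (2 * L + m) * t : ℂ) : OnePoint ℂ) := by
    intro m
    obtain ⟨t, ht, hnear⟩ := fa_near b L m ρ hρ
    have hcop := fa_cop b L m t h0 ht
    have hdeg := fa_deg b L m t h0
    have hhyp := hrob _ _ hcop hdeg hnear
    have hcrit : IsCrit (rat (faP b L m t) (X - C b)) ((b + t : ℂ) : OnePoint ℂ) := by
      apply crit_of_wr hcop (by rw [hdeg]; norm_num)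
      rw [fa_wr]
      ring
    have hatt := hhyp _ hcrit
    refine ⟨t, ht, hcop, ?_⟩
    rw [← att_map (rat_continuous hcop)] at hatt
    have hq : (X - C b : Polynomial ℂ).eval (b + t) ≠ 0 := by
      simpa using ht
    rw [rat_coe_of_ne hq, fa_eval] at hatt
    have hv : ((b + L * (b + t - b) + m * t) * (b + t - b) + L * t ^ 2) /
        (X - C b : Polynomial ℂ).eval (b + t) = b + (2 * L + m) * t := by
      have : (X - C b : Polynomial ℂ).eval (b + t) = t := by simp
      rw [this, div_eq_iff ht]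
      ring
    rw [hv] at hatt
    exact hatt
  rcases lt_or_gt_of_ne h1 with hL | hL
  · -- attracting case
    obtain ⟨t, ht, hcop, hatt⟩ := key (-2 * L)
    have hdeg := fa_deg b L (-2 * L) t h0
    have e1 : b + (2 * L + -2 * L) * t = b := by ring
    rw [e1] at hatt
    have hfb : rat (faP b L (-2 * L) t) (X - C b) (b : OnePoint ℂ) = ∞ := by
      rw [rat_coe, pt, if_pos (by simp)]
    rw [← att_map (rat_continuous hcop), hfb] at hatt
    set K : ℝ := ‖b‖ + ‖L‖ * ‖b‖ + ‖-2 * L * t‖ + ‖L * t ^ 2‖ with hK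
    have hKn : 0 ≤ K := by positivity
    have hfi : rat (faP b L (-2 * L) t) (X - C b) ∞ = ∞ := by
      rw [rat_infty, pt, if_pos]
      have : dg (faP b L (-2 * L) t) (X - C b) = 2 := hdeg
      rw [this, coeff_sub, coeff_X, coeff_C]
      simp
    refine not_att_inf hcop (by rw [hdeg]; norm_num) hfi
      (max (‖b‖ + 1) (K / (1 - ‖L‖))) ?_ hatt
    intro z hz
    have hz1 : ‖b‖ + 1 < ‖z‖ := lt_of_le_of_lt (le_max_left _ _) hz
    have hz2 : K / (1 - ‖L‖) < ‖z‖ := lt_of_le_of_lt (le_max_right _ _) hz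
    have hzb : 1 ≤ ‖z - b‖ := by
      have := norm_sub_norm_le z b
      linarith
    have hzb0 : z - b ≠ 0 := by
      intro h
      rw [h, norm_zero] at hzb
      linarith
    have hq : (X - C b : Polynomial ℂ).eval z ≠ 0 := by
      simpa using hzb0
    refine ⟨b + L * (z - b) + (-2 * L) * t + L * t ^ 2 / (z - b), ?_, ?_⟩
    · rw [rat_coe_of_ne hq, fa_eval]
      congr 1
      have : (X - C b : Polynomial ℂ).eval z = z - b := by simp
      rw [this]
      field_simp
    · have hpos : 0 < 1 - ‖L‖ := by linarith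
      have h3 : K < ‖z‖ * (1 - ‖L‖) := by
        rwa [div_lt_iff₀ hpos] at hz2
      have h4 : ‖L * t ^ 2 / (z - b)‖ ≤ ‖L * t ^ 2‖ := by
        rw [norm_div]
        exact div_le_self (norm_nonneg _) hzb
      have h5 : ‖L * (z - b)‖ ≤ ‖L‖ * (‖z‖ + ‖b‖) := by
        rw [norm_mul]
        exact mul_le_mul_of_nonneg_left (norm_sub_le _ _) (norm_nonneg _)
      have h6 : ‖b + L * (z - b) + (-2 * L) * t + L * t ^ 2 / (z - b)‖ ≤
          ‖b‖ + ‖L * (z - b)‖ + ‖-2 * L * t‖ + ‖L * t ^ 2 / (z - b)‖ := by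
        refine (norm_add_le _ _).trans ?_
        gcongr
        refine (norm_add_le _ _).trans ?_
        gcongr
        exact norm_add_le _ _
      nlinarith
  · -- repelling case
    have hLp : L + 1 ≠ 0 := by
      intro h
      have : L = -1 := by linear_combination h
      rw [this] at hL
      simp at hL
    have hLm : L - 1 ≠ 0 := by
      intro h
      have : L = 1 := by linear_combination h
      rw [this] at hL
      simp at hL
    obtain ⟨x, hx⟩ : ∃ x : ℂ, x = (L + 1) / (L - 1) := ⟨_, rfl⟩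
    have hx0 : x ≠ 0 := by rw [hx]; exact div_ne_zero hLp hLm
    have hxe : (L - 1) * x = L + 1 := by
      rw [hx]
      field_simp
    have hquad : (L - 1) * x ^ 2 - 2 * L * x + (L + 1) = 0 := by
      linear_combination (x - 1) * hxe
    obtain ⟨t, ht, hcop, hatt⟩ := key (1 / x - 2 * L)
    have hdeg := fa_deg b L (1 / x - 2 * L) t h0
    obtain ⟨u, hu⟩ : ∃ u : ℂ, t = u * x := ⟨t / x, by field_simp⟩
    have hu0 : u ≠ 0 := by
      rintro rfl
      exact ht (by rw [hu, zero_mul])
    have hmt : (1 / x - 2 * L) * t = u - 2 * L * t := by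
      rw [hu]
      field_simp
    have e1 : b + (2 * L + (1 / x - 2 * L)) * t = b + u := by
      linear_combination hmt
    rw [e1] at hatt
    have htx' : t * x ≠ 0 := mul_ne_zero ht hx0
    have hfb : rat (faP b L (1 / x - 2 * L) t) (X - C b) ((b + u : ℂ) : OnePoint ℂ) =
        ((b + t * x : ℂ) : OnePoint ℂ) := by
      have hq : (X - C b : Polynomial ℂ).eval (b + u) ≠ 0 := by
        simpa using hu0
      rw [rat_coe_of_ne hq, fa_eval, hmt]
      congr 1
      have : (X - C b : Polynomial ℂ).eval (b + u) = u := by simp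
      rw [this, div_eq_iff hu0, hu]
      linear_combination u ^ 2 * hquad
    rw [← att_map (rat_continuous hcop), hfb] at hatt
    refine repelling_not_att hcop (by rw [hdeg]; norm_num) ?_ ?_ ?_ hatt
    · rw [fa_eval, hmt]
      have : (X - C b : Polynomial ℂ).eval (b + t * x) = t * x := by simp
      rw [this, hu]
      linear_combination u ^ 2 * x ^ 2 * hquad
    · simpa using htx'
    · rw [fa_wr]
      have : (X - C b : Polynomial ℂ).eval (b + t * x) = t * x := by simp
      rw [this]
      have hm : (L * (b + t * x - b) ^ 2 - L * t ^ 2) / (t * x) ^ 2 =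
          (2 * L / (1 + L)) ^ 2 := by
        rw [hx]
        have : (1 + L) ≠ 0 := by rwa [add_comm] at hLp
        field_simp
        ring
      rw [hm, norm_pow, norm_div, norm_mul]
      have h3 : ‖1 + L‖ < 2 * ‖L‖ := by
        have := norm_add_le (1 : ℂ) L
        rw [norm_one] at this
        linarith
      have h4 : 0 < ‖1 + L‖ := by
        rw [norm_pos_iff]
        rwa [add_comm] at hLp
      have h5 : ‖(2 : ℂ)‖ = 2 := by simp
      rw [h5]
      apply one_lt_pow₀ _ two_ne_zero
      rwa [lt_div_iff₀ h4, one_mul]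

end Pool.Agent.H32.RC
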